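import Mathlib

/-!
Lower bounds for Gaussian product sets.
-/

open MeasureTheory ProbabilityTheory Matrix WithLp
open scoped ENNReal NNReal RealInnerProductSpace

namespace H11Kac

variable {ι : Type*} [Fintype ι]

lemma pi_ge {μ ν : ι → Measure ℝ} [∀ i, SigmaFinite (ν i)] (c : ι → ℝ≥0∞)
    (h : ∀ i, c i • ν i ≤ μ i) : (∏ i, c i) • Measure.pi ν ≤ Measure.pi μ := by
  have key : ((∏ i, c i) • Measure.pi ν).toOuterMeasure ≤
      OuterMeasure.pi (fun i => (μ i).toOuterMeasure) := by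
    rw [OuterMeasure.le_pi]
    intro t _
    change (∏ i, c i) * Measure.pi ν (Set.univ.pi t) ≤ ∏ i, μ i (t i)
    rw [Measure.pi_pi, ← Finset.prod_mul_distrib]
    exact Finset.prod_le_prod' fun i _ => h i (t i)
  rw [Measure.le_iff]
  intro s hs
  have h1 := key s
  have h2 : Measure.pi μ s = OuterMeasure.pi (fun i => (μ i).toOuterMeasure) s := by
    rw [Measure.pi, toMeasure_apply _ _ hs]
  rw [h2]
  exact h1

lemma gaussian_le {l v : ℝ≥0} (hv : 0 < v) (h : v ≤ l) :
    ENNReal.ofReal (√v / √l) • gaussianReal 0 v ≤ gaussianReal 0 l := by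
  have hl : 0 < l := hv.trans_le h
  rw [gaussianReal_of_var_ne_zero _ hv.ne', gaussianReal_of_var_ne_zero _ hl.ne',
    ← withDensity_smul _ (measurable_gaussianPDF 0 v)]
  apply withDensity_mono
  refine Filter.Eventually.of_forall fun x => ?_
  simp only [Pi.smul_apply, smul_eq_mul, gaussianPDF]
  rw [← ENNReal.ofReal_mul (by positivity)]
  apply ENNReal.ofReal_le_ofReal
  simp only [gaussianPDFReal, sub_zero]
  have hv' : (0 : ℝ) < v := by exact_mod_cast hv
  have hl' : (0 : ℝ) < l := by exact_mod_cast hl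
  have hvl : (v : ℝ) ≤ l := by exact_mod_cast h
  have e1 : √v / √l * ((√(2 * Real.pi * v))⁻¹ * Real.exp (-x ^ 2 / (2 * v))) =
      (√(2 * Real.pi * l))⁻¹ * Real.exp (-x ^ 2 / (2 * v)) := by
    rw [Real.sqrt_mul (by positivity) (v : ℝ), Real.sqrt_mul (by positivity) (l : ℝ)]
    have : √(v : ℝ) ≠ 0 := (Real.sqrt_pos.2 hv').ne'
    have : √(l : ℝ) ≠ 0 := (Real.sqrt_pos.2 hl').ne'
    field_simp
  rw [e1]
  apply mul_le_mul_of_nonneg_left _ (by positivity)
  apply Real.exp_le_exp.2
  rw [neg_div, neg_div, neg_le_neg_iff]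
  gcongr

section

variable {J : Type*} [Fintype J] (e : ι → J → ℝ)

/-- The adjoint map. -/
noncomputable def adjU : EuclideanSpace ℝ ι →ₗ[ℝ] EuclideanSpace ℝ J where
  toFun t := toLp 2 (fun j => ∑ i, t i * e i j)
  map_add' s t := by
    ext j
    simp [add_mul, Finset.sum_add_distrib]
  map_smul' a t := by
    ext j
    simp [Finset.mul_sum, mul_assoc]

/-- The evaluation map. -/
noncomputable def evL (x : EuclideanSpace ℝ J) : EuclideanSpace ℝ ι :=
  toLp 2 (fun i => ∑ j, e i j * x j)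

lemma inner_evL (x : EuclideanSpace ℝ J) (t : EuclideanSpace ℝ ι) :
    ⟪evL e x, t⟫ = ⟪x, adjU e t⟫ := by
  simp only [evL, adjU, PiLp.inner_apply, LinearMap.coe_mk, AddHom.coe_mk, RCLike.inner_apply,
    conj_trivial]
  simp_rw [Finset.mul_sum, Finset.sum_mul]
  rw [Finset.sum_comm]
  refine Finset.sum_congr rfl fun j _ => Finset.sum_congr rfl fun i _ => by ring

lemma norm_adjU_sq (t : EuclideanSpace ℝ ι) :
    ‖adjU e t‖ ^ 2 = ∑ j, (∑ i, t i * e i j) ^ 2 := by
  rw [EuclideanSpace.real_norm_sq_eq]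
  rfl

/-- The Gram matrix. -/
noncomputable def gram : Matrix ι ι ℝ := fun i k => ∑ j, e i j * e k j

lemma gram_isHermitian : (gram e).IsHermitian := by
  ext i k
  simp [gram, Matrix.conjTranspose_apply, mul_comm]

lemma inner_adjU (s t : EuclideanSpace ℝ ι) :
    ⟪adjU e s, adjU e t⟫ = ∑ i, s i * (gram e *ᵥ t.ofLp) i := by
  have h : ∀ x : EuclideanSpace ℝ ι, ∀ j, (adjU e x) j = ∑ i, x i * e i j := fun x j => rfl
  simp only [PiLp.inner_apply, h, RCLike.inner_apply,
    conj_trivial, gram, Matrix.mulVec, dotProduct]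
  calc ∑ j, (∑ k, t k * e k j) * ∑ i, s i * e i j
      = ∑ j, ∑ i, ∑ k, s i * (e i j * e k j * t k) := by
        refine Finset.sum_congr rfl fun j _ => ?_
        rw [mul_comm, Finset.sum_mul]
        refine Finset.sum_congr rfl fun i _ => ?_
        rw [Finset.mul_sum]
        refine Finset.sum_congr rfl fun k _ => by ring
    _ = ∑ i, ∑ k, ∑ j, s i * (e i j * e k j * t k) := by
        rw [Finset.sum_comm]
        refine Finset.sum_congr rfl fun i _ => ?_
        rw [Finset.sum_comm]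
    _ = _ := by
        refine Finset.sum_congr rfl fun i _ => ?_
        rw [Finset.mul_sum]
        refine Finset.sum_congr rfl fun k _ => ?_
        rw [Finset.sum_mul, Finset.mul_sum]

variable [DecidableEq ι]

/-- eigenvalues of the Gram matrix -/
noncomputable def lam (i : ι) : ℝ := (gram_isHermitian e).eigenvalues i

/-- eigenvectors of the Gram matrix -/
noncomputable def eb : OrthonormalBasis ι ℝ (EuclideanSpace ℝ ι) :=
  (gram_isHermitian e).eigenvectorBasis

lemma inner_adjU_eb (s : EuclideanSpace ℝ ι) (i : ι) :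
    ⟪adjU e s, adjU e (eb e i)⟫ = lam e i * ⟪s, eb e i⟫ := by
  rw [inner_adjU]
  have h := (gram_isHermitian e).mulVec_eigenvectorBasis i
  have h' : gram e *ᵥ (eb e i).ofLp = lam e i • (eb e i).ofLp := h
  rw [h']
  simp only [Pi.smul_apply, smul_eq_mul, PiLp.inner_apply, RCLike.inner_apply, conj_trivial]
  rw [Finset.mul_sum]
  exact Finset.sum_congr rfl fun k _ => by ring

lemma norm_adjU_sq' (t : EuclideanSpace ℝ ι) :
    ‖adjU e t‖ ^ 2 = ∑ i, lam e i * ⟪eb e i, t⟫ ^ 2 := by
  rw [← real_inner_self_eq_norm_sq]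
  conv_lhs =>
    arg 3
    rw [← (eb e).sum_repr' t]
  rw [map_sum, inner_sum]
  refine Finset.sum_congr rfl fun i _ => ?_
  rw [map_smul, inner_smul_right, inner_adjU_eb, real_inner_comm t]
  ring

lemma lam_ge {v : ℝ} (hQ : ∀ c : ι → ℝ, v * ∑ i, c i ^ 2 ≤ ∑ j, (∑ i, c i * e i j) ^ 2)
    (i : ι) : v ≤ lam e i := by
  have h := hQ (eb e i).ofLp
  rw [← norm_adjU_sq, ← EuclideanSpace.real_norm_sq_eq, (eb e).norm_eq_one,
    ← real_inner_self_eq_norm_sq, inner_adjU_eb, real_inner_self_eq_norm_sq,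
    (eb e).norm_eq_one] at h
  simpa using h

lemma sum_lam : ∑ i, lam e i = ∑ i, ∑ j, e i j ^ 2 := by
  have h := (gram_isHermitian e).trace_eq_sum_eigenvalues
  have h2 : (gram e).trace = ∑ i, ∑ j, e i j ^ 2 := by
    simp [Matrix.trace, gram, sq]
  rw [← h2, h]
  simp [lam]

end

section main

variable {J : Type*} [Fintype J] (e : ι → J → ℝ) [DecidableEq ι]

lemma measurable_evL : Measurable (evL e) := by
  have : Continuous (evL e) := by
    unfold evL
    fun_prop
  exact this.measurable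

lemma charFun_evL (t : EuclideanSpace ℝ ι) :
    charFun ((stdGaussian (EuclideanSpace ℝ J)).map (evL e)) t =
      Complex.exp (-(‖adjU e t‖ : ℂ) ^ 2 / 2) := by
  rw [charFun_apply, integral_map (measurable_evL e).aemeasurable
    (by fun_prop)]
  simp_rw [inner_evL]
  rw [← charFun_apply, charFun_stdGaussian]

/-- The Gaussian law in the eigenbasis. -/
noncomputable def eigLaw (l : ι → ℝ≥0) (b : OrthonormalBasis ι ℝ (EuclideanSpace ℝ ι)) :
    Measure (EuclideanSpace ℝ ι) :=
  (Measure.pi (fun i => gaussianReal 0 (l i))).map (fun x => ∑ i, x i • b i)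

lemma charFun_eigLaw (l : ι → ℝ≥0) (b : OrthonormalBasis ι ℝ (EuclideanSpace ℝ ι))
    (t : EuclideanSpace ℝ ι) :
    charFun (eigLaw l b) t = Complex.exp (-((∑ i, (l i : ℝ) * ⟪b i, t⟫ ^ 2 : ℝ) : ℂ) / 2) := by
  rw [charFun_apply, eigLaw, integral_map (Measurable.aemeasurable (by fun_prop))
    (Measurable.aestronglyMeasurable (by fun_prop))]
  simp_rw [sum_inner, Complex.ofReal_sum, Finset.sum_mul, Complex.exp_sum,
    integral_fintype_prod_eq_prod
      (f := fun i x ↦ Complex.exp (⟪x • b i, t⟫ * Complex.I)),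
    real_inner_smul_left, mul_comm _ (⟪_, _⟫ : ℝ), Complex.ofReal_mul, ← charFun_apply_real,
    charFun_gaussianReal]
  simp only [Complex.ofReal_zero, mul_zero, zero_mul, zero_sub]
  rw [← Complex.exp_sum]
  congr 1
  rw [Finset.sum_neg_distrib, ← Finset.sum_div, neg_div]
  congr 2
  refine Finset.sum_congr rfl fun i _ => ?_
  push_cast
  ring

lemma eigLaw_eq (l : ι → ℝ≥0) (hl : ∀ i, (l i : ℝ) = lam e i) :
    eigLaw l (eb e) = (stdGaussian (EuclideanSpace ℝ J)).map (evL e) := by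
  have : IsProbabilityMeasure (eigLaw l (eb e)) :=
    Measure.isProbabilityMeasure_map (Measurable.aemeasurable (by fun_prop))
  have : IsProbabilityMeasure ((stdGaussian (EuclideanSpace ℝ J)).map (evL e)) :=
    Measure.isProbabilityMeasure_map (measurable_evL e).aemeasurable
  apply Measure.ext_of_charFun (E := EuclideanSpace ℝ ι)
  ext t
  rw [charFun_eigLaw, charFun_evL]
  congr 2
  have := norm_adjU_sq' e t
  simp_rw [hl]
  rw [← this]
  push_cast
  ring

lemma eigLaw_const (v : ℝ≥0) (b : OrthonormalBasis ι ℝ (EuclideanSpace ℝ ι)) :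
    eigLaw (fun _ => v) b = (Measure.pi (fun _ : ι => gaussianReal 0 v)).map (toLp 2) := by
  have : IsProbabilityMeasure (eigLaw (fun _ => v) b) :=
    Measure.isProbabilityMeasure_map (Measurable.aemeasurable (by fun_prop))
  have : IsProbabilityMeasure ((Measure.pi (fun _ : ι => gaussianReal 0 v)).map (toLp 2)) :=
    Measure.isProbabilityMeasure_map (Measurable.aemeasurable (by fun_prop))
  apply Measure.ext_of_charFun (E := EuclideanSpace ℝ ι)
  ext t
  rw [charFun_eigLaw]
  simp_rw [charFun_pi, charFun_gaussianReal, ← Complex.exp_sum]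
  congr 1
  rw [← Finset.mul_sum, b.sum_sq_inner_right, EuclideanSpace.real_norm_sq_eq]
  simp [Finset.sum_div, Finset.mul_sum, neg_div]

theorem orthant {Ω : Type*} [MeasurableSpace Ω] {P : Measure Ω} [IsProbabilityMeasure P]
    {ξ : J → Ω → ℝ} (hm : ∀ j, Measurable (ξ j)) (hind : iIndepFun ξ P)
    (hlaw : ∀ j, P.map (ξ j) = gaussianReal 0 1) {v : ℝ≥0} (hv : 0 < v)
    (hQ : ∀ c : ι → ℝ, v * ∑ i, c i ^ 2 ≤ ∑ j, (∑ i, c i * e i j) ^ 2)
    (htr : ∑ i, ∑ j, e i j ^ 2 ≤ Fintype.card ι) (O : ι → Set ℝ) (hO : ∀ i, MeasurableSet (O i)) :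
    ∏ i, (ENNReal.ofReal √v * gaussianReal 0 v (O i)) ≤
      P {ω | ∀ i, ∑ j, e i j * ξ j ω ∈ O i} := by
  have hlge : ∀ i, (v : ℝ) ≤ lam e i := fun i => lam_ge e hQ i
  have hl0 : ∀ i, 0 ≤ lam e i := fun i => v.2.trans (hlge i)
  set l : ι → ℝ≥0 := fun i => ⟨lam e i, hl0 i⟩ with hl
  have hvl : ∀ i, v ≤ l i := fun i => by
    rw [← NNReal.coe_le_coe]
    exact hlge i
  set A : Set (EuclideanSpace ℝ ι) := {y | ∀ i, y i ∈ O i} with hA
  have hAm : MeasurableSet A := by
    rw [hA]
    have : {y : EuclideanSpace ℝ ι | ∀ i, y i ∈ O i} = ⋂ i, (fun y => y i) ⁻¹' (O i) := by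
      ext y
      simp
    rw [this]
    exact MeasurableSet.iInter fun i => (by fun_prop : Measurable fun y : EuclideanSpace ℝ ι => y i)
      (hO i)
  -- law of the vector
  have h1 : P {ω | ∀ i, ∑ j, e i j * ξ j ω ∈ O i} =
      ((stdGaussian (EuclideanSpace ℝ J)).map (evL e)) A := by
    have hX : P.map (fun ω j => ξ j ω) = Measure.pi (fun _ : J => gaussianReal 0 1) := by
      rw [(iIndepFun_iff_map_fun_eq_pi_map (fun j => (hm j).aemeasurable)).1 hind]
      congr 1
      funext j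
      exact hlaw j
    have hmt : Measurable (toLp 2 : (J → ℝ) → EuclideanSpace ℝ J) := by fun_prop
    have hmX : Measurable (fun ω j => ξ j ω) := by fun_prop
    have hme := measurable_evL e
    rw [← map_pi_eq_stdGaussian, ← hX, Measure.map_map hme hmt,
      Measure.map_map (hme.comp hmt) hmX, Measure.map_apply ((hme.comp hmt).comp hmX) hAm]
    rfl
  rw [h1, ← eigLaw_eq e l (fun i => rfl)]
  have h2 : (∏ i, ENNReal.ofReal (√v / √(l i))) • eigLaw (fun _ => v) (eb e) ≤
      eigLaw l (eb e) := by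
    unfold eigLaw
    rw [← Measure.map_smul]
    apply Measure.map_mono
    · exact pi_ge _ fun i => gaussian_le hv (hvl i)
    · fun_prop
  have h3 := h2 A
  rw [eigLaw_const, Measure.smul_apply, Measure.map_apply (by fun_prop) hAm] at h3
  have h4 : (toLp 2 ⁻¹' A : Set (ι → ℝ)) = Set.univ.pi O := by
    ext y
    simp [hA]
  rw [h4, Measure.pi_pi] at h3
  refine le_trans ?_ h3
  rw [Finset.prod_mul_distrib, smul_eq_mul]
  refine mul_le_mul' ?_ le_rfl
  -- product of square roots
  rw [← ENNReal.ofReal_prod_of_nonneg (fun i _ => by positivity),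
    ← ENNReal.ofReal_prod_of_nonneg (fun i _ => by positivity)]
  apply ENNReal.ofReal_le_ofReal
  rw [Finset.prod_div_distrib]
  have hv' : (0 : ℝ) < v := by exact_mod_cast hv
  have hlpos : ∀ i, 0 < lam e i := fun i => hv'.trans_le (hlge i)
  have h5 : ∏ i, √(l i : ℝ) ≤ 1 := by
    have h6 : ∏ i, √(l i : ℝ) ≤ ∏ i, Real.exp ((lam e i - 1) / 2) := by
      apply Finset.prod_le_prod (fun i _ => by positivity)
      intro i _
      rw [show Real.exp ((lam e i - 1) / 2) = √(Real.exp (lam e i - 1)) by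
        rw [Real.exp_half]]
      apply Real.sqrt_le_sqrt
      have := Real.add_one_le_exp (lam e i - 1)
      have hli : (l i : ℝ) = lam e i := rfl
      rw [hli]
      linarith
    refine h6.trans ?_
    rw [← Real.exp_sum, Real.exp_le_one_iff, ← Finset.sum_div, Finset.sum_sub_distrib, sum_lam]
    simp only [Finset.sum_const, Finset.card_univ, nsmul_eq_mul, mul_one]
    linarith
  have h7 : 0 < ∏ i, √(l i : ℝ) := Finset.prod_pos fun i _ => Real.sqrt_pos.2 (hlpos i)
  rw [le_div_iff₀ h7]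
  calc (∏ _i : ι, √(v : ℝ)) * ∏ i, √(l i : ℝ) ≤ (∏ _i : ι, √(v : ℝ)) * 1 := by gcongr
    _ = _ := mul_one _

end main

end H11Kac
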