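import Pool.Agent.H11Kac.Eval
import Pool.Agent.H11Kac.Orthant

/-!
Probability of a block sign pattern.
-/

open MeasureTheory ProbabilityTheory Finset
open scoped ENNReal NNReal

namespace H11Kac

/-- signed evaluation points -/
noncomputable def zz (s : Bool) (a : ℕ) : ℝ := if s then xx a else -xx a

lemma zz_sq (s : Bool) (a : ℕ) : zz s a ^ 2 = xx a ^ 2 := by
  cases s <;> simp [zz]

lemma abs_zz (s : Bool) (a : ℕ) : |zz s a| = xx a := by
  cases s <;> simp [zz, abs_of_nonneg (xx_nonneg a)]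

/-- absolute weighted sums -/
lemma abs_sum_le (a0 r : ℕ) (c : ℕ → ℝ) :
    (∑ i ∈ range r, |c i| * (sg (a0 + i))⁻¹) ^ 2 ≤
      4.2 * (1 / 22 : ℝ) ^ a0 * ∑ i ∈ range r, c i ^ 2 := by
  have hq := qN_pos
  have h1 : ∑ i ∈ range r, |c i| * (sg (a0 + i))⁻¹ ≤
      2 * qN ^ a0 * ∑ i ∈ range r, qN ^ i * |c i| := by
    rw [mul_sum]
    refine sum_le_sum fun i _ => ?_
    have h2 := inv_sg_le (a0 + i)
    rw [pow_add] at h2
    calc |c i| * (sg (a0 + i))⁻¹ ≤ |c i| * (2 * (qN ^ a0 * qN ^ i)) :=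
          mul_le_mul_of_nonneg_left h2 (abs_nonneg _)
      _ = _ := by ring
  have h0 : 0 ≤ ∑ i ∈ range r, |c i| * (sg (a0 + i))⁻¹ :=
    sum_nonneg fun i _ => mul_nonneg (abs_nonneg _) (inv_nonneg.2 (sg_pos _).le)
  have h3 : (∑ i ∈ range r, qN ^ i * |c i|) ^ 2 ≤
      (∑ i ∈ range r, (qN ^ i) ^ 2) * ∑ i ∈ range r, |c i| ^ 2 :=
    sum_mul_sq_le_sq_mul_sq _ _ _
  have h4 : ∑ i ∈ range r, (qN ^ i) ^ 2 ≤ 1.05 := by
    have e : ∀ i, (qN ^ i) ^ 2 = (1 / 22 : ℝ) ^ i := fun i => by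
      rw [← pow_mul, mul_comm, pow_mul, qN_sq]
    simp_rw [e]
    have h5 := geom_sum_eq (x := (1 / 22 : ℝ)) (by norm_num) r
    rw [h5]
    have h6 : (0 : ℝ) ≤ (1 / 22 : ℝ) ^ r := by positivity
    rw [div_le_iff_of_neg (by norm_num)]
    linarith
  have h7 : ∑ i ∈ range r, |c i| ^ 2 = ∑ i ∈ range r, c i ^ 2 :=
    sum_congr rfl fun i _ => sq_abs _
  rw [h7] at h3
  have h8 : 0 ≤ ∑ i ∈ range r, c i ^ 2 := sum_nonneg fun i _ => sq_nonneg _
  calc (∑ i ∈ range r, |c i| * (sg (a0 + i))⁻¹) ^ 2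
      ≤ (2 * qN ^ a0 * ∑ i ∈ range r, qN ^ i * |c i|) ^ 2 := pow_le_pow_left₀ h0 h1 2
    _ = 4 * (qN ^ a0) ^ 2 * (∑ i ∈ range r, qN ^ i * |c i|) ^ 2 := by ring
    _ ≤ 4 * (qN ^ a0) ^ 2 * (1.05 * ∑ i ∈ range r, c i ^ 2) := by
        apply mul_le_mul_of_nonneg_left _ (by positivity)
        exact h3.trans (mul_le_mul_of_nonneg_right h4 h8)
    _ = 4.2 * (1 / 22 : ℝ) ^ a0 * ∑ i ∈ range r, c i ^ 2 := by
        rw [← pow_mul, mul_comm a0, pow_mul, qN_sq]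
        ring

lemma alt_block (x y : ℝ) (hx : 0 ≤ x) (hx1 : x ≤ 1) (hy : 0 ≤ y) (hy1 : y ≤ 1) {A B : ℕ}
    (hAB : A ≤ B) : |∑ j ∈ Ico A B, x ^ j * (-y) ^ j| ≤ 2 := by
  have h0 : 0 ≤ x * y := mul_nonneg hx hy
  have h0' : x * y ≤ 1 := by nlinarith
  have h1 : x * (-y) ≠ 1 := by nlinarith
  rw [block_sum x (-y) h1 hAB]
  have h2 : |x * (-y)| ≤ 1 := by
    rw [abs_le]
    constructor <;> nlinarith
  have h3 : |(x * -y) ^ A| ≤ 1 := by
    rw [abs_pow]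
    exact pow_le_one₀ (abs_nonneg _) h2
  have h4 : |(x * -y) ^ B| ≤ 1 := by
    rw [abs_pow]
    exact pow_le_one₀ (abs_nonneg _) h2
  have h5 : |(1 - x * -y)⁻¹| ≤ 1 := by
    rw [abs_inv]
    apply inv_le_one_of_one_le₀
    rw [abs_of_nonneg (by nlinarith)]
    nlinarith
  rw [abs_mul]
  calc |(x * -y) ^ A - (x * -y) ^ B| * |(1 - x * -y)⁻¹|
      ≤ (|(x * -y) ^ A| + |(x * -y) ^ B|) * 1 := by
        apply mul_le_mul (abs_sub _ _) h5 (abs_nonneg _) (by positivity)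
    _ ≤ 2 := by linarith

lemma cross_le (a0 r : ℕ) (c c' : ℕ → ℝ) {A B : ℕ} (hAB : A ≤ B) :
    |∑ j ∈ Ico A B, (-1) ^ j * (ev a0 r c j * ev a0 r c' j)| ≤
      4.2 * (1 / 22 : ℝ) ^ a0 * (∑ i ∈ range r, c i ^ 2 + ∑ i ∈ range r, c' i ^ 2) := by
  have h1 : ∑ j ∈ Ico A B, (-1) ^ j * (ev a0 r c j * ev a0 r c' j) =
      ∑ i ∈ range r, ∑ k ∈ range r, (c i * (sg (a0 + i))⁻¹) * (c' k * (sg (a0 + k))⁻¹) *
        ∑ j ∈ Ico A B, xx (a0 + i) ^ j * (-xx (a0 + k)) ^ j := by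
    unfold ev
    simp_rw [sum_mul_sum, mul_sum]
    rw [sum_comm]
    refine sum_congr rfl fun i _ => ?_
    rw [sum_comm]
    refine sum_congr rfl fun k _ => ?_
    refine sum_congr rfl fun j _ => ?_
    rw [neg_pow (xx (a0 + k))]
    ring
  rw [h1]
  set X := ∑ i ∈ range r, |c i| * (sg (a0 + i))⁻¹ with hX
  set X' := ∑ i ∈ range r, |c' i| * (sg (a0 + i))⁻¹ with hX'
  have h2 : |∑ i ∈ range r, ∑ k ∈ range r, (c i * (sg (a0 + i))⁻¹) * (c' k * (sg (a0 + k))⁻¹) *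
        ∑ j ∈ Ico A B, xx (a0 + i) ^ j * (-xx (a0 + k)) ^ j| ≤ 2 * (X * X') := by
    rw [hX, hX', sum_mul_sum, mul_sum]
    refine (abs_sum_le_sum_abs _ _).trans (sum_le_sum fun i _ => ?_)
    rw [mul_sum]
    refine (abs_sum_le_sum_abs _ _).trans (sum_le_sum fun k _ => ?_)
    have h3 := alt_block (xx (a0 + i)) (xx (a0 + k)) (xx_nonneg _) (xx_lt_one _).le
      (xx_nonneg _) (xx_lt_one _).le hAB
    rw [abs_mul, abs_mul, abs_mul, abs_mul, abs_of_pos (inv_pos.2 (sg_pos (a0 + i))),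
      abs_of_pos (inv_pos.2 (sg_pos (a0 + k)))]
    have h4 : 0 ≤ |c i| * (sg (a0 + i))⁻¹ * (|c' k| * (sg (a0 + k))⁻¹) := by
      have := (inv_pos.2 (sg_pos (a0 + i))).le
      have := (inv_pos.2 (sg_pos (a0 + k))).le
      positivity
    nlinarith [mul_le_mul_of_nonneg_left h3 h4]
  have h5 := abs_sum_le a0 r c
  have h6 := abs_sum_le a0 r c'
  rw [← hX] at h5
  rw [← hX'] at h6
  refine h2.trans ?_
  nlinarith [sq_nonneg (X - X')]

lemma two_sided {a0 r A B : ℕ} (ha0 : 3 ≤ a0) (c c' : ℕ → ℝ) (hAB : A ≤ B) {C : ℝ}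
    (hC : 5000 ≤ C)
    (hA : ∀ i < r, C * A ≤ (22 : ℝ) ^ (a0 + i)) (hB : ∀ i < r, C * (22 : ℝ) ^ (a0 + i) ≤ B) :
    1 / 4 * (∑ i ∈ range r, c i ^ 2 + ∑ i ∈ range r, c' i ^ 2) ≤
      ∑ j ∈ Ico A B, (ev a0 r c j + (-1) ^ j * ev a0 r c' j) ^ 2 := by
  have h1 := ev_sq_ge c hAB hC hA hB
  have h2 := ev_sq_ge c' hAB hC hA hB
  have h3 := cross_le a0 r c c' hAB
  have h4 : ∑ j ∈ Ico A B, (ev a0 r c j + (-1) ^ j * ev a0 r c' j) ^ 2 =
      ∑ j ∈ Ico A B, ev a0 r c j ^ 2 + ∑ j ∈ Ico A B, ev a0 r c' j ^ 2 +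
        2 * ∑ j ∈ Ico A B, (-1) ^ j * (ev a0 r c j * ev a0 r c' j) := by
    rw [mul_sum, ← sum_add_distrib, ← sum_add_distrib]
    refine sum_congr rfl fun j _ => ?_
    have h5 : ((-1 : ℝ) ^ j) ^ 2 = 1 := by
      rw [← pow_mul, mul_comm, pow_mul]; norm_num
    nlinarith [h5]
  rw [h4]
  have h6 : (1 / 22 : ℝ) ^ a0 ≤ 1 / 10648 := by
    calc (1 / 22 : ℝ) ^ a0 ≤ (1 / 22 : ℝ) ^ 3 := pow_le_pow_of_le_one (by norm_num) (by norm_num) ha0
      _ = 1 / 10648 := by norm_num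
  have h7 : 0 ≤ ∑ i ∈ range r, c i ^ 2 := sum_nonneg fun i _ => sq_nonneg _
  have h8 : 0 ≤ ∑ i ∈ range r, c' i ^ 2 := sum_nonneg fun i _ => sq_nonneg _
  have h9 := (abs_le.1 h3).1
  have h10 : 4.2 * (1 / 22 : ℝ) ^ a0 * (∑ i ∈ range r, c i ^ 2 + ∑ i ∈ range r, c' i ^ 2) ≤
      0.001 * (∑ i ∈ range r, c i ^ 2 + ∑ i ∈ range r, c' i ^ 2) := by
    apply mul_le_mul_of_nonneg_right _ (by linarith)
    linarith
  linarith

lemma gauss_half (ε : ℝ) (hε : ε = 1 ∨ ε = -1) :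
    ENNReal.ofReal 0.48 ≤ gaussianReal 0 (1 / 4 : ℝ≥0) {y | 1 / 40 ≤ ε * y} := by
  set μ := gaussianReal 0 (1 / 4 : ℝ≥0) with hμ
  have hv : (1 / 4 : ℝ≥0) ≠ 0 := by norm_num
  have hsym : μ {y | 1 / 40 ≤ -1 * y} = μ {y | 1 / 40 ≤ 1 * y} := by
    have h1 : μ.map (fun x => -x) = μ := by
      rw [hμ]
      have := gaussianReal_map_neg (μ := 0) (v := (1 / 4 : ℝ≥0))
      rw [neg_zero] at this
      exact this
    conv_rhs => rw [← h1]
    rw [Measure.map_apply (by fun_prop) (measurableSet_le (by fun_prop) (by fun_prop))]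
    congr 1
    ext y
    simp
  have hmid : μ (Set.Ioo (-(1 / 40)) (1 / 40)) ≤ ENNReal.ofReal 0.04 := by
    rw [hμ, gaussianReal_apply _ hv]
    calc ∫⁻ x in Set.Ioo (-(1 / 40 : ℝ)) (1 / 40), gaussianPDF 0 (1 / 4 : ℝ≥0) x
        ≤ ∫⁻ _x in Set.Ioo (-(1 / 40 : ℝ)) (1 / 40), ENNReal.ofReal 0.8 := by
          apply lintegral_mono
          intro x
          unfold gaussianPDF
          apply ENNReal.ofReal_le_ofReal
          unfold gaussianPDFReal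
          have h2 : Real.exp (-(x - 0) ^ 2 / (2 * ((1 / 4 : ℝ≥0) : ℝ))) ≤ 1 := by
            rw [Real.exp_le_one_iff, neg_div]
            have : 0 ≤ (x - 0) ^ 2 / (2 * ((1 / 4 : ℝ≥0) : ℝ)) := by positivity
            linarith
          have h3 : (√(2 * Real.pi * ((1 / 4 : ℝ≥0) : ℝ)))⁻¹ ≤ 0.8 := by
            rw [inv_le_comm₀ (Real.sqrt_pos.2 (by positivity)) (by norm_num)]
            apply Real.le_sqrt_of_sq_le
            have := Real.pi_gt_d2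
            push_cast
            norm_num
            linarith
          have h4 : 0 ≤ (√(2 * Real.pi * ((1 / 4 : ℝ≥0) : ℝ)))⁻¹ := by positivity
          calc (√(2 * Real.pi * ((1 / 4 : ℝ≥0) : ℝ)))⁻¹ *
                Real.exp (-(x - 0) ^ 2 / (2 * ((1 / 4 : ℝ≥0) : ℝ)))
              ≤ 0.8 * 1 := mul_le_mul h3 h2 (Real.exp_pos _).le (by norm_num)
            _ = 0.8 := mul_one _
      _ = ENNReal.ofReal 0.8 * volume (Set.Ioo (-(1 / 40 : ℝ)) (1 / 40)) := by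
          rw [setLIntegral_const]
      _ = ENNReal.ofReal 0.04 := by
          rw [Real.volume_Ioo, ← ENNReal.ofReal_mul (by norm_num)]
          norm_num
  have hcov : (1 : ℝ≥0∞) ≤ μ {y | 1 / 40 ≤ 1 * y} + μ {y | 1 / 40 ≤ -1 * y} +
      μ (Set.Ioo (-(1 / 40)) (1 / 40)) := by
    have h5 : (1 : ℝ≥0∞) = μ Set.univ := measure_univ.symm
    rw [h5]
    refine le_trans (measure_mono ?_) ((measure_union_le _ _).trans
      (add_le_add (measure_union_le _ _) le_rfl))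
    intro y _
    by_cases h6 : 1 / 40 ≤ 1 * y
    · exact Or.inl (Or.inl h6)
    · by_cases h7 : 1 / 40 ≤ -1 * y
      · exact Or.inl (Or.inr h7)
      · refine Or.inr ⟨?_, ?_⟩ <;> linarith
  have hmain : ENNReal.ofReal 0.48 ≤ μ {y | 1 / 40 ≤ 1 * y} := by
    by_contra hc
    push Not at hc
    rw [hsym] at hcov
    have h8 : μ {y | 1 / 40 ≤ 1 * y} + μ {y | 1 / 40 ≤ 1 * y} +
      μ (Set.Ioo (-(1 / 40)) (1 / 40)) < ENNReal.ofReal 0.48 + ENNReal.ofReal 0.48 +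
        ENNReal.ofReal 0.04 :=
      ENNReal.add_lt_add_of_lt_of_le (ne_top_of_le_ne_top ENNReal.ofReal_ne_top hmid)
        (ENNReal.add_lt_add hc hc) hmid
    rw [← ENNReal.ofReal_add (by norm_num) (by norm_num),
      ← ENNReal.ofReal_add (by norm_num) (by norm_num)] at h8
    have h9 : ENNReal.ofReal (0.48 + 0.48 + 0.04) = 1 := by norm_num
    rw [h9] at h8
    exact absurd (hcov.trans_lt h8) (lt_irrefl _)
  rcases hε with rfl | rfl
  · exact hmain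
  · rw [hsym]
    exact hmain

lemma geom_Ico_le {y : ℝ} (h0 : 0 ≤ y) (h1 : y < 1) {A B : ℕ} (hAB : A ≤ B) :
    ∑ j ∈ Ico A B, y ^ j ≤ y ^ A * (1 - y)⁻¹ := by
  rw [geom_sum_Ico h1.ne hAB]
  have h2 : 0 < 1 - y := by linarith
  have h3 : (y ^ B - y ^ A) / (y - 1) = (y ^ A - y ^ B) * (1 - y)⁻¹ := by
    have : y - 1 ≠ 0 := by linarith
    field_simp
    ring
  rw [h3]
  apply mul_le_mul_of_nonneg_right _ (inv_nonneg.2 h2.le)
  have : 0 ≤ y ^ B := by positivity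
  linarith

/-- the block event -/
def blockEv {Ω : Type*} (ξ : ℕ → Ω → ℝ) (ε : ℕ → ℝ) (n a0 r A B : ℕ) : Set Ω :=
  {ω | ∀ i < r, ∀ s : Bool,
    1 / 40 * sg (a0 + i) ≤ ε i * ∑ j ∈ Ico A B, ξ (n - j) ω * zz s (a0 + i) ^ j}

theorem block_prob {Ω : Type*} [MeasurableSpace Ω] {P : Measure Ω} [IsProbabilityMeasure P]
    {ξ : ℕ → Ω → ℝ} (hm : ∀ j, Measurable (ξ j)) (hind : iIndepFun ξ P)
    (hlaw : ∀ j, P.map (ξ j) = gaussianReal 0 1)
    {n a0 r A B : ℕ} (ha0 : 3 ≤ a0) (hAB : A ≤ B) (hBn : B ≤ n + 1) {C : ℝ}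
    (hC : 5000 ≤ C)
    (hA : ∀ i < r, C * A ≤ (22 : ℝ) ^ (a0 + i)) (hB : ∀ i < r, C * (22 : ℝ) ^ (a0 + i) ≤ B)
    (ε : ℕ → ℝ) (hε : ∀ i, ε i = 1 ∨ ε i = -1) :
    ENNReal.ofReal (0.24 ^ (2 * r)) ≤ P (blockEv ξ ε n a0 r A B) := by
  classical
  set e : Fin r × Bool → {j // j ∈ Ico A B} → ℝ := fun p j =>
    zz p.2 (a0 + p.1) ^ (j : ℕ) * (sg (a0 + p.1))⁻¹ with he
  have hinj : Function.Injective (fun j : {j // j ∈ Ico A B} => n - (j : ℕ)) := by
    intro j j' hjj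
    have h1 := (mem_Ico.1 j.2).2
    have h2 := (mem_Ico.1 j'.2).2
    apply Subtype.ext
    simp only at hjj
    omega
  have h := orthant (P := P) (ξ := fun j : {j // j ∈ Ico A B} => ξ (n - (j : ℕ))) e
    (fun j => hm _) (hind.precomp hinj) (fun j => hlaw _) (v := 1 / 4) (by norm_num)
    (by
      intro c
      set c1 : ℕ → ℝ := fun i => if h : i < r then c (⟨i, h⟩, true) else 0 with hc1
      set c2 : ℕ → ℝ := fun i => if h : i < r then c (⟨i, h⟩, false) else 0 with hc2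
      have h1 := two_sided ha0 c1 c2 hAB hC hA hB
      have h2 : ∑ p, c p ^ 2 = ∑ i ∈ range r, c1 i ^ 2 + ∑ i ∈ range r, c2 i ^ 2 := by
        rw [Fintype.sum_prod_type, Finset.sum_range, Finset.sum_range, ← sum_add_distrib]
        refine sum_congr rfl fun i _ => ?_
        rw [Fintype.sum_bool]
        simp [hc1, hc2]
      have h3 : ∀ j : {j // j ∈ Ico A B}, ∑ p, c p * e p j =
          ev a0 r c1 j + (-1) ^ (j : ℕ) * ev a0 r c2 j := by
        intro j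
        unfold ev
        rw [Fintype.sum_prod_type, Finset.sum_range, Finset.sum_range, mul_sum,
          ← sum_add_distrib]
        refine sum_congr rfl fun i _ => ?_
        rw [Fintype.sum_bool]
        simp only [he, zz, hc1, hc2, Fin.is_lt, dite_true, if_true, Fin.eta]
        rw [if_neg (by simp), neg_pow (xx _)]
        ring
      simp_rw [h3]
      rw [h2, Finset.sum_coe_sort (Ico A B)
        (fun j => (ev a0 r c1 j + (-1) ^ j * ev a0 r c2 j) ^ 2)]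
      push_cast
      exact h1)
    (by
      have h1 : ∀ p : Fin r × Bool, ∑ j, e p j ^ 2 ≤ 1 := by
        intro p
        have h2 : ∑ j, e p j ^ 2 = (sg (a0 + p.1))⁻¹ ^ 2 *
            ∑ j ∈ Ico A B, (xx (a0 + p.1) ^ 2) ^ j := by
          rw [← Finset.sum_coe_sort (Ico A B), mul_sum]
          refine sum_congr rfl fun j _ => ?_
          simp only [he]
          rw [mul_pow, ← pow_mul, mul_comm (j : ℕ) 2, pow_mul, zz_sq]
          ring
        rw [h2]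
        have h3 := sg_sq' (a0 + p.1)
        have h4 := sg_pos (a0 + p.1)
        have h5 := xx_lt_one (a0 + p.1)
        have h6 := xx_nonneg (a0 + p.1)
        have h7 : xx (a0 + p.1) ^ 2 < 1 := by nlinarith
        have h8 := geom_Ico_le (sq_nonneg (xx (a0 + p.1))) h7 hAB
        have h9 : (xx (a0 + p.1) ^ 2) ^ A ≤ 1 := pow_le_one₀ (sq_nonneg _) h7.le
        have h10 : 0 < 1 - xx (a0 + p.1) ^ 2 := by linarith
        have h11 : (1 - xx (a0 + p.1) ^ 2)⁻¹ = sg (a0 + p.1) ^ 2 :=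
          (eq_inv_of_mul_eq_one_left h3).symm
        rw [h11] at h8
        calc (sg (a0 + p.1))⁻¹ ^ 2 * ∑ j ∈ Ico A B, (xx (a0 + p.1) ^ 2) ^ j
            ≤ (sg (a0 + p.1))⁻¹ ^ 2 * (1 * sg (a0 + p.1) ^ 2) := by
              apply mul_le_mul_of_nonneg_left _ (by positivity)
              exact h8.trans (mul_le_mul_of_nonneg_right h9 (by positivity))
          _ = 1 := by
              field_simp
      calc ∑ p, ∑ j, e p j ^ 2 ≤ ∑ _p : Fin r × Bool, (1 : ℝ) := sum_le_sum fun p _ => h1 p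
        _ = _ := by simp)
    (fun p => {y | 1 / 40 ≤ ε p.1 * y})
    (fun p => measurableSet_le (by fun_prop) (by fun_prop))
  have hset : {ω | ∀ p : Fin r × Bool, ∑ j, e p j * ξ (n - (j : ℕ)) ω ∈
      {y | 1 / 40 ≤ ε p.1 * y}} ⊆ blockEv ξ ε n a0 r A B := by
    intro ω hω i hi s
    have h1 := hω (⟨i, hi⟩, s)
    simp only [he, Set.mem_ofPred_eq] at h1
    have h4 := sg_pos (a0 + i)
    have h2 : ∑ j ∈ Ico A B, ξ (n - j) ω * zz s (a0 + i) ^ j = sg (a0 + i) *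
        ∑ j : {j // j ∈ Ico A B}, zz s (a0 + i) ^ (j : ℕ) * (sg (a0 + i))⁻¹ * ξ (n - (j : ℕ)) ω := by
      rw [Finset.sum_coe_sort (Ico A B)
        (fun j => zz s (a0 + i) ^ j * (sg (a0 + i))⁻¹ * ξ (n - j) ω), mul_sum]
      refine sum_congr rfl fun j _ => ?_
      field_simp
    rw [h2]
    nlinarith [mul_le_mul_of_nonneg_left h1 h4.le]
  refine le_trans ?_ (h.trans (measure_mono hset))
  calc ENNReal.ofReal (0.24 ^ (2 * r)) = ∏ _p : Fin r × Bool, ENNReal.ofReal 0.24 := by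
        rw [prod_const, card_univ, Fintype.card_prod, Fintype.card_fin, Fintype.card_bool,
          ← ENNReal.ofReal_pow (by norm_num), mul_comm]
    _ ≤ _ := by
        apply Finset.prod_le_prod'
        intro p _
        have h1 := gauss_half (ε p.1) (hε p.1)
        have h2 : ENNReal.ofReal √((1 / 4 : ℝ≥0) : ℝ) = ENNReal.ofReal (1 / 2) := by
          congr 1
          rw [Real.sqrt_eq_iff_mul_self_eq (by positivity) (by norm_num)]
          push_cast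
          norm_num
        rw [h2]
        calc ENNReal.ofReal 0.24 = ENNReal.ofReal (1 / 2) * ENNReal.ofReal 0.48 := by
              rw [← ENNReal.ofReal_mul (by norm_num)]
              norm_num
          _ ≤ _ := mul_le_mul' le_rfl h1

end H11Kac
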