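import Pool.Agent.H11Kac.Gram

/-!
Evaluation vectors at the points (22^a-1)/(22^a+1).
-/

namespace H11Kac

open Finset

/-- the square root of 22 -/
noncomputable def sN : ℝ := √22
/-- its inverse -/
noncomputable def qN : ℝ := (√22)⁻¹

lemma sN_sq : sN ^ 2 = 22 := Real.sq_sqrt (by norm_num)
lemma sN_pos : 0 < sN := Real.sqrt_pos.2 (by norm_num)
lemma qN_pos : 0 < qN := inv_pos.2 sN_pos
lemma sN_qN : sN * qN = 1 := mul_inv_cancel₀ sN_pos.ne'
lemma qN_sq : qN ^ 2 = 1 / 22 := by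
  have : qN = sN⁻¹ := rfl
  rw [this, inv_pow, sN_sq]; norm_num
lemma qN_le : qN ≤ 0.2133 := by
  have h := qN_sq
  by_contra hc
  push Not at hc
  nlinarith [qN_pos]
lemma qN_lt_one : qN < 1 := lt_of_le_of_lt qN_le (by norm_num)

/-- the kernel -/
noncomputable def Sd (d : ℕ) : ℝ := 2 * qN ^ d / (1 + qN ^ (2 * d))

lemma Sd_zero : Sd 0 = 1 := by norm_num [Sd]

lemma Sd_nonneg (d : ℕ) : 0 ≤ Sd d := by
  have := qN_pos
  unfold Sd
  positivity

lemma Sd_le (d : ℕ) : Sd d ≤ 2 * qN ^ d := by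
  have := qN_pos
  unfold Sd
  apply div_le_self (by positivity)
  have : 0 < qN ^ (2 * d) := by positivity
  linarith

lemma Sd_ge (d : ℕ) : 2 * qN ^ d - Sd d ≤ 2 * (qN ^ 3) ^ d := by
  have := qN_pos
  have h1 : 2 * qN ^ d - Sd d = 2 * (qN ^ 3) ^ d / (1 + qN ^ (2 * d)) := by
    unfold Sd
    field_simp
    rw [← pow_mul, show 3 * d = d + 2 * d by ring, pow_add]
    ring
  rw [h1]
  apply div_le_self (by positivity)
  have : 0 < qN ^ (2 * d) := by positivity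
  linarith

lemma form_full (c : ℕ → ℝ) (r : ℕ) :
    0.257 * ∑ i ∈ range r, c i ^ 2 ≤
      ∑ i ∈ range r, ∑ k ∈ range r, Sd (dd i k) * (c i * c k) := by
  have hq0 := qN_pos
  have hq1 := qN_lt_one
  set Q := ∑ i ∈ range r, c i ^ 2 with hQ
  have hQ0 : 0 ≤ Q := sum_nonneg fun i _ => sq_nonneg _
  have hF := FF_ge' hq0.le hq1 c r
  have hq3 : qN ^ 3 ≤ 0.00971 := by
    have : qN ^ 3 = qN ^ 2 * qN := by ring
    rw [this, qN_sq]
    have := qN_le
    linarith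
  have hq30 : 0 ≤ qN ^ 3 := by positivity
  have hS := schur hq30 (by linarith) c r
  have hkey : 2 * FF qN c r - ∑ i ∈ range r, ∑ k ∈ range r, Sd (dd i k) * (c i * c k) ≤
      2 * ∑ i ∈ range r, ∑ k ∈ range r, (qN ^ 3) ^ dd i k * |c i * c k| - Q := by
    unfold FF
    rw [mul_sum, mul_sum, hQ, ← sum_sub_distrib, ← sum_sub_distrib]
    refine sum_le_sum fun i hi => ?_
    rw [mul_sum, mul_sum, ← sum_sub_distrib]
    have h1 : c i ^ 2 = ∑ k ∈ range r, if k = i then c i ^ 2 else 0 := by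
      rw [sum_ite_eq' (range r) i]
      simp [hi]
    rw [h1, ← sum_sub_distrib]
    refine sum_le_sum fun k _ => ?_
    by_cases hk : k = i
    · subst hk
      rw [dd_self, Sd_zero]
      simp only [pow_zero, if_true, one_mul]
      rw [abs_mul_self]
      nlinarith
    · rw [if_neg hk]
      have h2 := Sd_ge (dd i k)
      have h3 : 0 ≤ 2 * qN ^ dd i k - Sd (dd i k) := by
        have := Sd_le (dd i k)
        linarith
      have h4 : c i * c k ≤ |c i * c k| := le_abs_self _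
      have h5 : 0 ≤ |c i * c k| := abs_nonneg _
      calc 2 * (qN ^ dd i k * (c i * c k)) - Sd (dd i k) * (c i * c k)
          = (2 * qN ^ dd i k - Sd (dd i k)) * (c i * c k) := by ring
        _ ≤ (2 * qN ^ dd i k - Sd (dd i k)) * |c i * c k| :=
            mul_le_mul_of_nonneg_left h4 h3
        _ ≤ (2 * (qN ^ 3) ^ dd i k) * |c i * c k| := mul_le_mul_of_nonneg_right h2 h5
        _ = _ := by ring
  have h6 : (1 + qN ^ 3) / (1 - qN ^ 3) ≤ 1.01962 := by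
    rw [div_le_iff₀ (by linarith)]
    linarith
  have h7 : ∑ i ∈ range r, ∑ k ∈ range r, (qN ^ 3) ^ dd i k * |c i * c k| ≤ 1.01962 * Q :=
    hS.trans (mul_le_mul_of_nonneg_right h6 hQ0)
  have h8 : 0.6483 * Q ≤ FF qN c r := by
    have h9 : 0.6483 * (1 + qN) ≤ 1 - qN := by
      have := qN_le
      linarith
    have h10 : 0.6483 * (1 + qN) * Q ≤ (1 + qN) * FF qN c r :=
      (mul_le_mul_of_nonneg_right h9 hQ0).trans hF
    have h11 : 0 < 1 + qN := by linarith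
    by_contra hc
    push Not at hc
    nlinarith [mul_lt_mul_of_pos_left hc h11]
  linarith

/-- truncated forms -/
lemma form_trunc (c : ℕ → ℝ) (r : ℕ) (w : ℕ → ℕ → ℝ)
    (hw : ∀ i < r, ∀ k < r, |1 - w i k| ≤ 0.001) :
    0.253 * ∑ i ∈ range r, c i ^ 2 ≤
      ∑ i ∈ range r, ∑ k ∈ range r, Sd (dd i k) * w i k * (c i * c k) := by
  have hq0 := qN_pos
  have hq1 := qN_lt_one
  have h1 := form_full c r
  have h2 := schur hq0.le hq1 c r
  set Q := ∑ i ∈ range r, c i ^ 2 with hQ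
  have hQ0 : 0 ≤ Q := sum_nonneg fun i _ => sq_nonneg _
  have h3 : ∑ i ∈ range r, ∑ k ∈ range r, Sd (dd i k) * (c i * c k) -
      ∑ i ∈ range r, ∑ k ∈ range r, Sd (dd i k) * w i k * (c i * c k) ≤
      0.002 * ∑ i ∈ range r, ∑ k ∈ range r, qN ^ dd i k * |c i * c k| := by
    rw [← sum_sub_distrib, mul_sum]
    refine sum_le_sum fun i hi => ?_
    rw [← sum_sub_distrib, mul_sum]
    refine sum_le_sum fun k hk => ?_
    have h4 := hw i (mem_range.1 hi) k (mem_range.1 hk)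
    calc Sd (dd i k) * (c i * c k) - Sd (dd i k) * w i k * (c i * c k)
        = Sd (dd i k) * ((1 - w i k) * (c i * c k)) := by ring
      _ ≤ Sd (dd i k) * |(1 - w i k) * (c i * c k)| :=
          mul_le_mul_of_nonneg_left (le_abs_self _) (Sd_nonneg _)
      _ = Sd (dd i k) * (|1 - w i k| * |c i * c k|) := by rw [abs_mul]
      _ ≤ (2 * qN ^ dd i k) * (0.001 * |c i * c k|) := by
          apply mul_le_mul (Sd_le _) _ (by positivity) (by positivity)
          exact mul_le_mul_of_nonneg_right h4 (abs_nonneg _)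
      _ = _ := by ring
  have h6 : (1 + qN) / (1 - qN) ≤ 1.5427 := by
    rw [div_le_iff₀ (by linarith)]
    have := qN_le
    linarith
  have h7 : ∑ i ∈ range r, ∑ k ∈ range r, qN ^ dd i k * |c i * c k| ≤ 1.5427 * Q :=
    h2.trans (mul_le_mul_of_nonneg_right h6 hQ0)
  linarith

/-- evaluation points -/
noncomputable def xx (a : ℕ) : ℝ := ((22 : ℝ) ^ a - 1) / ((22 : ℝ) ^ a + 1)
/-- normalisation -/
noncomputable def sg (a : ℕ) : ℝ := ((22 : ℝ) ^ a + 1) / (2 * sN ^ a)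

lemma sg_pos (a : ℕ) : 0 < sg a := by
  have := sN_pos
  unfold sg
  positivity

lemma sN_pow_sq (a : ℕ) : (sN ^ a) ^ 2 = 22 ^ a := by
  rw [← pow_mul, mul_comm, pow_mul, sN_sq]

lemma sg_sq (a : ℕ) : sg a ^ 2 = ((22 : ℝ) ^ a + 1) ^ 2 / (4 * 22 ^ a) := by
  unfold sg
  rw [div_pow, mul_pow, sN_pow_sq]
  norm_num

lemma sg_sq' (a : ℕ) : sg a ^ 2 * (1 - xx a ^ 2) = 1 := by
  rw [sg_sq]
  unfold xx
  have h : (0 : ℝ) < 22 ^ a := by positivity
  field_simp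
  ring

lemma sg_sq_ge (a : ℕ) : (22 : ℝ) ^ a / 4 ≤ sg a ^ 2 := by
  rw [sg_sq]
  have h : (0 : ℝ) < 22 ^ a := by positivity
  rw [div_le_div_iff₀ (by norm_num) (by positivity)]
  nlinarith

lemma inv_sg_le (a : ℕ) : (sg a)⁻¹ ≤ 2 * qN ^ a := by
  have h1 := sN_pos
  have h : (0 : ℝ) < 22 ^ a := by positivity
  have e : qN ^ a = (sN ^ a)⁻¹ := by
    rw [← inv_pow]; rfl
  rw [e]
  unfold sg
  rw [inv_div, div_le_iff₀ (by positivity)]
  have h2 : 0 < sN ^ a := by positivity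
  have h3 := sN_pow_sq a
  field_simp
  nlinarith

lemma xx_nonneg (a : ℕ) : 0 ≤ xx a := by
  unfold xx
  have h : (1 : ℝ) ≤ 22 ^ a := one_le_pow₀ (by norm_num)
  apply div_nonneg <;> linarith

lemma one_sub_xx (a : ℕ) : 1 - xx a = 2 / ((22 : ℝ) ^ a + 1) := by
  unfold xx
  have h : (0 : ℝ) < 22 ^ a := by positivity
  field_simp
  ring

lemma xx_lt_one (a : ℕ) : xx a < 1 := by
  have h := one_sub_xx a
  have h2 : (0 : ℝ) < 2 / ((22 : ℝ) ^ a + 1) := by positivity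
  linarith

lemma xx_pos {a : ℕ} (ha : 0 < a) : 0 < xx a := by
  unfold xx
  have h : (1 : ℝ) < 22 ^ a := one_lt_pow₀ (by norm_num) ha.ne'
  apply div_pos <;> linarith

lemma xx_mul_lt_one (a b : ℕ) : xx a * xx b < 1 := by
  have h1 := xx_lt_one a
  have h2 := xx_lt_one b
  have h3 := xx_nonneg a
  have h4 := xx_nonneg b
  nlinarith

/-- full kernel -/
lemma kernel_full (a b : ℕ) :
    (1 - xx a * xx b)⁻¹ * ((sg a)⁻¹ * (sg b)⁻¹) = Sd (dd a b) := by
  wlog h : a ≤ b generalizing a b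
  · have := this b a (le_of_not_ge h)
    rw [dd_comm, ← this, mul_comm (xx a)]
    ring
  obtain ⟨d, rfl⟩ := Nat.exists_eq_add_of_le h
  rw [dd_of_le h, Nat.add_sub_cancel_left]
  have h0 : (0 : ℝ) < 22 ^ a := by positivity
  have h1 : (0 : ℝ) < 22 ^ d := by positivity
  have hs := sN_pos
  have h2 : 0 < sN ^ a := by positivity
  have h3 : 0 < sN ^ d := by positivity
  have e1 : 1 - xx a * xx (a + d) =
      2 * (22 ^ a * (1 + 22 ^ d)) / ((22 ^ a + 1) * (22 ^ (a + d) + 1)) := by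
    unfold xx
    rw [pow_add]
    field_simp
    ring
  have e2 : qN ^ d = (sN ^ d)⁻¹ := by
    rw [← inv_pow]; rfl
  have e3 : qN ^ (2 * d) = (22 ^ d)⁻¹ := by
    rw [pow_mul, qN_sq, one_div, inv_pow]
  have e4 : (22 : ℝ) ^ a = (sN ^ a) ^ 2 := (sN_pow_sq a).symm
  have e5 : (22 : ℝ) ^ d = (sN ^ d) ^ 2 := (sN_pow_sq d).symm
  rw [e1]
  unfold Sd sg
  rw [e2, e3, pow_add sN, pow_add (22 : ℝ), e4, e5]
  field_simp
  try ring

lemma block_sum (z w : ℝ) (h : z * w ≠ 1) {A B : ℕ} (hAB : A ≤ B) :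
    ∑ j ∈ Ico A B, z ^ j * w ^ j = ((z * w) ^ A - (z * w) ^ B) * (1 - z * w)⁻¹ := by
  simp_rw [← mul_pow]
  rw [geom_sum_Ico h hAB]
  have h1 : z * w - 1 ≠ 0 := sub_ne_zero.2 h
  have h2 : 1 - z * w ≠ 0 := sub_ne_zero.2 (Ne.symm h)
  field_simp
  ring

/-- one-sided evaluation -/
noncomputable def ev (a0 r : ℕ) (c : ℕ → ℝ) (j : ℕ) : ℝ :=
  ∑ i ∈ range r, c i * (xx (a0 + i) ^ j * (sg (a0 + i))⁻¹)

lemma dd_add (a i k : ℕ) : dd (a + i) (a + k) = dd i k := by unfold dd; omega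

lemma ev_sq_sum (a0 r : ℕ) (c : ℕ → ℝ) {A B : ℕ} (hAB : A ≤ B) :
    ∑ j ∈ Ico A B, ev a0 r c j ^ 2 =
      ∑ i ∈ range r, ∑ k ∈ range r, Sd (dd i k) *
        ((xx (a0 + i) * xx (a0 + k)) ^ A - (xx (a0 + i) * xx (a0 + k)) ^ B) * (c i * c k) := by
  unfold ev
  simp_rw [sq, sum_mul_sum]
  rw [sum_comm]
  refine sum_congr rfl fun i _ => ?_
  rw [sum_comm]
  refine sum_congr rfl fun k _ => ?_
  have h1 := xx_mul_lt_one (a0 + i) (a0 + k)
  have h2 := block_sum (xx (a0 + i)) (xx (a0 + k)) h1.ne hAB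
  have h3 := kernel_full (a0 + i) (a0 + k)
  rw [dd_add] at h3
  rw [← h3]
  calc ∑ j ∈ Ico A B, c i * (xx (a0 + i) ^ j * (sg (a0 + i))⁻¹) *
        (c k * (xx (a0 + k) ^ j * (sg (a0 + k))⁻¹))
      = c i * c k * ((sg (a0 + i))⁻¹ * (sg (a0 + k))⁻¹) *
        ∑ j ∈ Ico A B, xx (a0 + i) ^ j * xx (a0 + k) ^ j := by
        rw [mul_sum]
        refine sum_congr rfl fun j _ => by ring
    _ = _ := by
        rw [h2]
        ring

lemma pow_block_lower {w : ℝ} (h0 : 0 ≤ w) (A : ℕ) : 1 - A * (1 - w) ≤ w ^ A := by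
  have := one_add_mul_le_pow (a := w - 1) (by linarith) A
  simp only [add_sub_cancel] at this
  linarith

lemma pow_block_upper {y : ℝ} (h0 : 0 ≤ y) (h1 : y ≤ 1) (B : ℕ) :
    (1 - y) ^ B * (1 + B * y) ≤ 1 := by
  have h2 : 1 + B * y ≤ (1 + y) ^ B := one_add_mul_le_pow (by linarith) B
  calc (1 - y) ^ B * (1 + B * y) ≤ (1 - y) ^ B * (1 + y) ^ B :=
        mul_le_mul_of_nonneg_left h2 (pow_nonneg (by linarith) _)
    _ = (1 - y ^ 2) ^ B := by rw [← mul_pow]; ring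
    _ ≤ 1 := pow_le_one₀ (by nlinarith) (by nlinarith)

lemma xx_pow_B {a B : ℕ} {C : ℝ} (hC : 0 < C) (h : C * 22 ^ a ≤ B) : xx a ^ B ≤ 1 / C := by
  have h0 : (1 : ℝ) ≤ 22 ^ a := one_le_pow₀ (by norm_num)
  have h1 := one_sub_xx a
  set y := 2 / ((22 : ℝ) ^ a + 1) with hy
  have hx : xx a = 1 - y := by linarith
  have hy0 : 0 ≤ y := by positivity
  have hy1 : y ≤ 1 := by
    have := xx_nonneg a
    linarith
  have hyT : 1 / (22 : ℝ) ^ a ≤ y := by
    rw [hy, div_le_div_iff₀ (by positivity) (by positivity)]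
    linarith
  have h2 := pow_block_upper hy0 hy1 B
  rw [hx, le_div_iff₀ hC]
  have h3 : C ≤ 1 + B * y := by
    have h4 : C ≤ B * (1 / (22 : ℝ) ^ a) := by
      rw [mul_one_div, le_div_iff₀ (by positivity)]
      exact h
    have h5 : (B : ℝ) * (1 / (22 : ℝ) ^ a) ≤ B * y := by gcongr
    linarith
  calc (1 - y) ^ B * C ≤ (1 - y) ^ B * (1 + B * y) :=
        mul_le_mul_of_nonneg_left h3 (pow_nonneg (by linarith) _)
    _ ≤ 1 := h2

lemma one_sub_mul_le (a b : ℕ) : 1 - xx a * xx b ≤ 2 / (22 : ℝ) ^ a + 2 / (22 : ℝ) ^ b := by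
  have h0 : (0 : ℝ) < 22 ^ a := by positivity
  have h0' : (0 : ℝ) < 22 ^ b := by positivity
  have h1 := one_sub_xx a
  have h2 := one_sub_xx b
  have h3 : 2 / ((22 : ℝ) ^ a + 1) ≤ 2 / (22 : ℝ) ^ a := by gcongr; linarith
  have h4 : 2 / ((22 : ℝ) ^ b + 1) ≤ 2 / (22 : ℝ) ^ b := by gcongr; linarith
  have h5 := xx_nonneg a
  have h6 := xx_lt_one a
  have h7 := xx_nonneg b
  have h8 := xx_lt_one b
  nlinarith

/-- weights are almost one -/
lemma weight_close {a b A B : ℕ} {C : ℝ} (hC : 0 < C) (hA : C * A ≤ 22 ^ a)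
    (hA' : C * A ≤ 22 ^ b) (hB : C * 22 ^ a ≤ B) :
    |1 - ((xx a * xx b) ^ A - (xx a * xx b) ^ B)| ≤ 5 / C := by
  have h0 := xx_nonneg a
  have h1 := xx_nonneg b
  have h2 := xx_lt_one b
  have hw0 : 0 ≤ xx a * xx b := mul_nonneg h0 h1
  have hw1 := xx_mul_lt_one a b
  have h3 := pow_block_lower hw0 A
  have h4 : (xx a * xx b) ^ B ≤ 1 / C := by
    refine le_trans ?_ (xx_pow_B hC hB)
    apply pow_le_pow_left₀ hw0
    nlinarith
  have h5 : (A : ℝ) * (1 - xx a * xx b) ≤ 4 / C := by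
    have h6 := one_sub_mul_le a b
    have hA0 : (0 : ℝ) ≤ A := Nat.cast_nonneg _
    have h7 : (A : ℝ) * (2 / 22 ^ a) ≤ 2 / C := by
      rw [mul_div_assoc', div_le_div_iff₀ (by positivity) hC]
      nlinarith
    have h8 : (A : ℝ) * (2 / 22 ^ b) ≤ 2 / C := by
      rw [mul_div_assoc', div_le_div_iff₀ (by positivity) hC]
      nlinarith
    have h9 : (A : ℝ) * (1 - xx a * xx b) ≤ A * (2 / (22 : ℝ) ^ a + 2 / (22 : ℝ) ^ b) :=
      mul_le_mul_of_nonneg_left h6 hA0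
    have : 4 / C = 2 / C + 2 / C := by ring
    linarith
  have h10 : (xx a * xx b) ^ A ≤ 1 := pow_le_one₀ hw0 hw1.le
  have h11 : 0 ≤ (xx a * xx b) ^ B := by positivity
  have h12 : 5 / C = 4 / C + 1 / C := by ring
  have h13 : 0 ≤ 5 / C := by positivity
  rw [abs_le]
  constructor <;> linarith

lemma ev_sq_ge {a0 r A B : ℕ} (c : ℕ → ℝ) (hAB : A ≤ B) {C : ℝ} (hC : 5000 ≤ C)
    (hA : ∀ i < r, C * A ≤ (22 : ℝ) ^ (a0 + i)) (hB : ∀ i < r, C * (22 : ℝ) ^ (a0 + i) ≤ B) :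
    0.253 * ∑ i ∈ range r, c i ^ 2 ≤ ∑ j ∈ Ico A B, ev a0 r c j ^ 2 := by
  rw [ev_sq_sum a0 r c hAB]
  apply form_trunc
  intro i hi k hk
  refine (weight_close (by linarith) (hA i hi) (hA k hk) (hB i hi)).trans ?_
  rw [div_le_iff₀ (by linarith)]
  linarith

end H11Kac
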