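import Pool.Agent.H11Kac.Block

/-!
Tail bounds for the rest terms.
-/

open MeasureTheory ProbabilityTheory Finset
open scoped ENNReal NNReal

namespace H11Kac

variable {Ω : Type*} [MeasurableSpace Ω] {P : Measure Ω} [IsProbabilityMeasure P]

lemma subG {X : Ω → ℝ} (hm : Measurable X) (hlaw : P.map X = gaussianReal 0 1) :
    HasSubgaussianMGF X 1 P where
  integrable_exp_mul t := by
    have h : Integrable (fun x => Real.exp (t * x)) (P.map X) := by
      rw [hlaw]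
      exact integrable_exp_mul_gaussianReal t
    exact (integrable_map_measure h.1 hm.aemeasurable).1 h
  mgf_le t := by
    rw [mgf_gaussianReal hlaw]
    simp

lemma lin_tail {ξ : ℕ → Ω → ℝ} (hm : ∀ j, Measurable (ξ j)) (hind : iIndepFun ξ P)
    (hlaw : ∀ j, P.map (ξ j) = gaussianReal 0 1) (s : Finset ℕ) (w : ℕ → ℝ) {V t : ℝ}
    (hV : 0 < V) (hw : ∑ i ∈ s, w i ^ 2 ≤ V) (ht : 0 ≤ t) :
    P.real {ω | t ≤ |∑ i ∈ s, w i * ξ i ω|} ≤ 2 * Real.exp (-t ^ 2 / (2 * V)) := by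
  have h1 : iIndepFun (fun i ω => w i * ξ i ω) P :=
    hind.comp (fun i x => w i * x) (fun i => by fun_prop)
  have h2 : ∀ i ∈ s, HasSubgaussianMGF (fun ω => w i * ξ i ω) (Real.toNNReal (w i ^ 2)) P := by
    intro i _
    have h := (subG (hm i) (hlaw i)).const_mul (w i)
    refine ⟨h.integrable_exp_mul, fun u => (h.mgf_le u).trans ?_⟩
    rw [Real.coe_toNNReal _ (sq_nonneg _)]
    apply Real.exp_le_exp.2
    apply le_of_eq
    change w i ^ 2 * 1 * u ^ 2 / 2 = w i ^ 2 * u ^ 2 / 2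
    ring
  have h3 := HasSubgaussianMGF.sum_of_iIndepFun h1 h2
  set c : ℝ≥0 := ∑ i ∈ s, Real.toNNReal (w i ^ 2) with hc
  have hcV : (c : ℝ) ≤ V := by
    rw [hc, NNReal.coe_sum]
    refine le_trans (le_of_eq (sum_congr rfl fun i _ => ?_)) hw
    rw [Real.coe_toNNReal _ (sq_nonneg _)]
  have key : ∀ X : Ω → ℝ, HasSubgaussianMGF X c P →
      P.real {ω | t ≤ X ω} ≤ Real.exp (-t ^ 2 / (2 * V)) := by
    intro X hX
    have hVc : ((Real.toNNReal V : ℝ≥0) : ℝ) = V := Real.coe_toNNReal V hV.le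
    have hX' : HasSubgaussianMGF X (Real.toNNReal V) P := by
      refine ⟨hX.integrable_exp_mul, fun u => (hX.mgf_le u).trans ?_⟩
      apply Real.exp_le_exp.2
      have : (c : ℝ) * u ^ 2 ≤ V * u ^ 2 := mul_le_mul_of_nonneg_right hcV (sq_nonneg _)
      rw [hVc]
      linarith
    have h := hX'.measure_ge_le ht
    rwa [hVc] at h
  have h4 := key _ h3
  have h5 := key _ h3.neg
  have h6 : {ω | t ≤ |∑ i ∈ s, w i * ξ i ω|} ⊆ {ω | t ≤ ∑ i ∈ s, w i * ξ i ω} ∪
      {ω | t ≤ (-fun ω => ∑ i ∈ s, w i * ξ i ω) ω} := by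
    intro ω hω
    rcases le_abs.1 (show t ≤ |∑ i ∈ s, w i * ξ i ω| from hω) with h | h
    · exact Or.inl h
    · exact Or.inr h
  calc P.real {ω | t ≤ |∑ i ∈ s, w i * ξ i ω|}
      ≤ P.real ({ω | t ≤ ∑ i ∈ s, w i * ξ i ω} ∪
          {ω | t ≤ (-fun ω => ∑ i ∈ s, w i * ξ i ω) ω}) := measureReal_mono h6
    _ ≤ _ := measureReal_union_le _ _
    _ ≤ _ := by linarith

/-- the rest term outside the block -/
noncomputable def restT (ξ : ℕ → Ω → ℝ) (n a A B : ℕ) (s : Bool) (ω : Ω) : ℝ :=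
  ∑ j ∈ range (n + 1), if A ≤ j ∧ j < B then 0 else ξ (n - j) ω * zz s a ^ j

lemma restT_eq (ξ : ℕ → Ω → ℝ) (n a A B : ℕ) (s : Bool) (ω : Ω) :
    restT ξ n a A B s ω = ∑ i ∈ range (n + 1),
      (if A ≤ n - i ∧ n - i < B then 0 else zz s a ^ (n - i)) * ξ i ω := by
  unfold restT
  rw [← Finset.sum_range_reflect]
  refine sum_congr rfl fun i hi => ?_
  have hi' := mem_range.1 hi
  rw [show n + 1 - 1 - i = n - i by omega, show n - (n - i) = i by omega]
  split_ifs <;> ring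

lemma rest_weights {a A B n : ℕ} (s : Bool) {C : ℝ} (hC : 5000 ≤ C)
    (hA : C * A ≤ (22 : ℝ) ^ a) (hB : C * (22 : ℝ) ^ a ≤ B) :
    ∑ i ∈ range (n + 1), (if A ≤ n - i ∧ n - i < B then 0 else zz s a ^ (n - i)) ^ 2 ≤
      5 * sg a ^ 2 / C := by
  have hC0 : 0 < C := by linarith
  have h0 : ∑ i ∈ range (n + 1), (if A ≤ n - i ∧ n - i < B then 0 else zz s a ^ (n - i)) ^ 2 =
      ∑ j ∈ range (n + 1), (if A ≤ j ∧ j < B then 0 else (xx a ^ 2) ^ j) := by
    rw [← Finset.sum_range_reflect (fun j => if A ≤ j ∧ j < B then 0 else (xx a ^ 2) ^ j)]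
    refine sum_congr rfl fun i _ => ?_
    rw [show n + 1 - 1 - i = n - i by omega]
    split_ifs
    · ring
    · rw [← pow_mul, mul_comm (n - i), pow_mul, zz_sq]
  rw [h0]
  have hx0 : 0 ≤ xx a ^ 2 := sq_nonneg _
  have hx1 : xx a ^ 2 < 1 := by
    have := xx_nonneg a
    have := xx_lt_one a
    nlinarith
  have h1 : ∑ j ∈ range (n + 1), (if A ≤ j ∧ j < B then 0 else (xx a ^ 2) ^ j) ≤
      ∑ j ∈ range A, (1 : ℝ) + ∑ j ∈ Ico B (B + n + 1), (xx a ^ 2) ^ j := by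
    have h2 : ∑ j ∈ range (n + 1), (if A ≤ j ∧ j < B then 0 else (xx a ^ 2) ^ j) ≤
        ∑ j ∈ range (n + 1), ((if j < A then 1 else 0) + (if B ≤ j then (xx a ^ 2) ^ j else 0)) := by
      refine sum_le_sum fun j _ => ?_
      have hp1 : (xx a ^ 2) ^ j ≤ 1 := pow_le_one₀ hx0 hx1.le
      have hp0 : 0 ≤ (xx a ^ 2) ^ j := pow_nonneg hx0 _
      by_cases h : A ≤ j ∧ j < B
      · rw [if_pos h]
        split_ifs <;> linarith
      · rw [if_neg h]
        by_cases h3 : j < A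
        · rw [if_pos h3]
          split_ifs <;> linarith
        · have h4 : B ≤ j := by
            by_contra h5
            exact h ⟨by omega, by omega⟩
          rw [if_neg h3, if_pos h4]
          linarith
    refine h2.trans ?_
    rw [sum_add_distrib]
    apply add_le_add
    · rw [← sum_filter]
      apply sum_le_sum_of_subset_of_nonneg
      · intro j hj
        rw [mem_filter] at hj
        exact mem_range.2 hj.2
      · intros; norm_num
    · rw [← sum_filter]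
      apply sum_le_sum_of_subset_of_nonneg
      · intro j hj
        rw [mem_filter, mem_range] at hj
        exact mem_Ico.2 ⟨hj.2, by omega⟩
      · intro j _ _
        exact pow_nonneg hx0 _
  refine h1.trans ?_
  have h2 := geom_Ico_le hx0 hx1 (show B ≤ B + n + 1 by omega)
  have h3 : (1 - xx a ^ 2)⁻¹ = sg a ^ 2 := (eq_inv_of_mul_eq_one_left (sg_sq' a)).symm
  rw [h3] at h2
  have h4 : (xx a ^ 2) ^ B ≤ 1 / C := by
    have h5 := xx_pow_B hC0 hB
    have h6 : (xx a ^ 2) ^ B = xx a ^ B * xx a ^ B := by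
      rw [← pow_mul, mul_comm, pow_mul, sq]
    have h7 : 0 ≤ xx a ^ B := pow_nonneg (xx_nonneg a) _
    have h8 : xx a ^ B ≤ 1 := pow_le_one₀ (xx_nonneg a) (xx_lt_one a).le
    rw [h6]
    nlinarith
  have h9 := sg_sq_ge a
  have h10 : 0 < sg a ^ 2 := pow_pos (sg_pos a) 2
  have h11 : (xx a ^ 2) ^ B * sg a ^ 2 ≤ 1 / C * sg a ^ 2 :=
    mul_le_mul_of_nonneg_right h4 h10.le
  rw [sum_const, card_range, nsmul_eq_mul, mul_one]
  have h12 : (A : ℝ) ≤ 4 * sg a ^ 2 / C := by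
    rw [le_div_iff₀ hC0]
    nlinarith
  have h13 : 5 * sg a ^ 2 / C = 4 * sg a ^ 2 / C + 1 / C * sg a ^ 2 := by ring
  linarith

lemma rest_prob {ξ : ℕ → Ω → ℝ} (hm : ∀ j, Measurable (ξ j)) (hind : iIndepFun ξ P)
    (hlaw : ∀ j, P.map (ξ j) = gaussianReal 0 1) {a A B : ℕ} (n : ℕ) (s : Bool) {C : ℝ}
    (hC : 5000 ≤ C) (hA : C * A ≤ (22 : ℝ) ^ a) (hB : C * (22 : ℝ) ^ a ≤ B) :
    P.real {ω | 1 / 40 * sg a ≤ |restT ξ n a A B s ω|} ≤ 2 * Real.exp (-C / 16000) := by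
  have hs := sg_pos a
  have h1 := lin_tail hm hind hlaw (range (n + 1))
    (fun i => if A ≤ n - i ∧ n - i < B then 0 else zz s a ^ (n - i))
    (V := 5 * sg a ^ 2 / C) (t := 1 / 40 * sg a) (by positivity)
    (rest_weights s hC hA hB) (by positivity)
  simp_rw [restT_eq]
  refine h1.trans (le_of_eq ?_)
  congr 2
  have hC0 : C ≠ 0 := by linarith
  field_simp
  norm_num

end H11Kac
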