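import Pool.Agent.H11Kac.Block
import Pool.Agent.H11Kac.Tail
import Mathlib

/-!
Counting real roots by sign changes at the points `±1/xx a`.
-/

open Finset

namespace H11Kac

lemma card_le_roots {ι : Type*} (p : Polynomial ℝ) (T : Finset ι) (l u : ι → ℝ)
    (hlu : ∀ t ∈ T, l t ≤ u t)
    (hdisj : ∀ t ∈ T, ∀ t' ∈ T, t ≠ t' → Disjoint (Set.Ioo (l t) (u t)) (Set.Ioo (l t') (u t')))
    (hsign : ∀ t ∈ T, p.eval (l t) * p.eval (u t) < 0) : T.card ≤ p.roots.card := by
  classical
  rcases T.eq_empty_or_nonempty with rfl | ⟨t0, ht0⟩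
  · simp
  have hp : p ≠ 0 := by
    rintro rfl
    have := hsign t0 ht0
    simp at this
  have hroot : ∀ t ∈ T, ∃ x ∈ Set.Ioo (l t) (u t), p.eval x = 0 := by
    intro t ht
    have hc : ContinuousOn (fun x => p.eval x) (Set.Icc (l t) (u t)) :=
      p.continuous.continuousOn
    rcases mul_neg_iff.1 (hsign t ht) with ⟨h1, h2⟩ | ⟨h1, h2⟩
    · exact intermediate_value_Ioo' (hlu t ht) hc ⟨h2, h1⟩
    · exact intermediate_value_Ioo (hlu t ht) hc ⟨h1, h2⟩
  choose! f hf using hroot
  have h1 : T.card = (T.image f).card := by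
    rw [card_image_of_injOn]
    intro t ht t' ht' hff
    by_contra hne
    have := hdisj t ht t' ht' hne
    exact Set.disjoint_left.1 this (hf t ht).1 (by rw [hff]; exact (hf t' ht').1)
  have h2 : T.image f ⊆ p.roots.toFinset := by
    intro x hx
    obtain ⟨t, ht, rfl⟩ := mem_image.1 hx
    rw [Multiset.mem_toFinset, Polynomial.mem_roots hp]
    exact (hf t ht).2
  rw [h1]
  exact (card_le_card h2).trans (Multiset.toFinset_card_le _)

lemma xx_mono {a b : ℕ} (h : a ≤ b) : xx a ≤ xx b := by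
  have h1 := one_sub_xx a
  have h2 := one_sub_xx b
  have h3 : (22 : ℝ) ^ a ≤ 22 ^ b := pow_le_pow_right₀ (by norm_num) h
  have h4 : 2 / ((22 : ℝ) ^ b + 1) ≤ 2 / ((22 : ℝ) ^ a + 1) := by
    gcongr
  linarith

lemma eval_inv (c : ℕ → ℝ) (n : ℕ) {z : ℝ} (hz : z ≠ 0) :
    (∑ i ∈ range (n + 1), Polynomial.C (c i) * Polynomial.X ^ i).eval z⁻¹ * z ^ n =
      ∑ j ∈ range (n + 1), c (n - j) * z ^ j := by
  rw [Polynomial.eval_finsetSum, sum_mul, ← Finset.sum_range_reflect]
  refine sum_congr rfl fun i hi => ?_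
  have hi' := mem_range.1 hi
  rw [show n + 1 - 1 - i = n - i by omega]
  simp only [Polynomial.eval_mul, Polynomial.eval_C, Polynomial.eval_pow, Polynomial.eval_X]
  have h1 : z ^ n = z ^ (n - i) * z ^ i := by rw [← pow_add]; congr 1; omega
  rw [h1]
  have h2 : z⁻¹ ^ (n - i) * z ^ (n - i) = 1 := by
    rw [← mul_pow, inv_mul_cancel₀ hz, one_pow]
  calc c (n - i) * z⁻¹ ^ (n - i) * (z ^ (n - i) * z ^ i)
      = c (n - i) * (z⁻¹ ^ (n - i) * z ^ (n - i)) * z ^ i := by ring
    _ = _ := by rw [h2, mul_one]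

lemma zz_mul_pos (s : Bool) {a b : ℕ} (ha : 0 < a) (hb : 0 < b) : 0 < zz s a * zz s b := by
  have h1 := xx_pos ha
  have h2 := xx_pos hb
  unfold zz
  split_ifs
  · positivity
  · rw [neg_mul_neg]; positivity

lemma roots_ge (c : ℕ → ℝ) (n : ℕ) (S : Finset ℕ) (hS : ∀ a ∈ S, 0 < a)
    (hsign : ∀ a ∈ S, ∀ s : Bool, (∑ j ∈ range (n + 1), c (n - j) * zz s a ^ j) *
      (∑ j ∈ range (n + 1), c (n - j) * zz s (a + 1) ^ j) < 0) :
    2 * S.card ≤
      (∑ i ∈ range (n + 1), Polynomial.C (c i) * Polynomial.X ^ i : Polynomial ℝ).roots.card := by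
  classical
  have hcard : 2 * S.card = (S ×ˢ (univ : Finset Bool)).card := by
    rw [card_product, card_univ, Fintype.card_bool, mul_comm]
  rw [hcard]
  set p : Polynomial ℝ := ∑ i ∈ range (n + 1), Polynomial.C (c i) * Polynomial.X ^ i with hp
  have hs : ∀ a ∈ S, ∀ s : Bool, p.eval (zz s a)⁻¹ * p.eval (zz s (a + 1))⁻¹ < 0 := by
    intro a ha s
    have h0 := hS a ha
    have h1 := zz_mul_pos s h0 (show 0 < a + 1 by omega)
    have hz1 : zz s a ≠ 0 := left_ne_zero_of_mul h1.ne'
    have hz2 : zz s (a + 1) ≠ 0 := right_ne_zero_of_mul h1.ne'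
    have h2 := hsign a ha s
    rw [← eval_inv c n hz1, ← eval_inv c n hz2, ← hp] at h2
    have h3 : 0 < (zz s a * zz s (a + 1)) ^ n := by positivity
    by_contra hneg
    push Not at hneg
    have h4 : 0 ≤ (p.eval (zz s a)⁻¹ * p.eval (zz s (a + 1))⁻¹) *
        (zz s a * zz s (a + 1)) ^ n := by positivity
    have h5 : (p.eval (zz s a)⁻¹ * p.eval (zz s (a + 1))⁻¹) *
        (zz s a * zz s (a + 1)) ^ n = p.eval (zz s a)⁻¹ * zz s a ^ n *
        (p.eval (zz s (a + 1))⁻¹ * zz s (a + 1) ^ n) := by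
      rw [mul_pow]; ring
    linarith
  refine card_le_roots p _
    (fun t => if t.2 then (xx (t.1 + 1))⁻¹ else -(xx t.1)⁻¹)
    (fun t => if t.2 then (xx t.1)⁻¹ else -(xx (t.1 + 1))⁻¹) ?_ ?_ ?_
  · rintro ⟨a, s⟩ ht
    have ha : a ∈ S := (mem_product.1 ht).1
    have h1 := xx_pos (hS a ha)
    have h2 := xx_mono (show a ≤ a + 1 by omega)
    have h3 : (xx (a + 1))⁻¹ ≤ (xx a)⁻¹ := inv_anti₀ h1 h2
    cases s
    · simpa using h3
    · simpa using h3
  · rintro ⟨a, s⟩ ht ⟨a', s'⟩ ht' hne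
    have ha : a ∈ S := (mem_product.1 ht).1
    have ha' : a' ∈ S := (mem_product.1 ht').1
    have hpos : ∀ b, 0 < b → 0 < (xx b)⁻¹ := fun b hb => inv_pos.2 (xx_pos hb)
    have hanti : ∀ b b', 0 < b → b ≤ b' → (xx b')⁻¹ ≤ (xx b)⁻¹ := fun b b' hb hbb =>
      inv_anti₀ (xx_pos hb) (xx_mono hbb)
    have h0 := hS a ha
    have h0' := hS a' ha'
    rw [Set.disjoint_left]
    intro x hx hx'
    cases s <;> cases s'
    · simp only [Bool.false_eq_true, if_false, Set.mem_Ioo] at hx hx'
      have hab : a ≠ a' := fun h => hne (by rw [h])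
      rcases lt_or_gt_of_ne hab with h | h
      · have := hanti (a + 1) a' (by omega) (by omega)
        linarith [hx.1, hx.2, hx'.1, hx'.2]
      · have := hanti (a' + 1) a (by omega) (by omega)
        linarith [hx.1, hx.2, hx'.1, hx'.2]
    · simp only [Bool.false_eq_true, if_false, if_true, Set.mem_Ioo] at hx hx'
      have h1 := hpos (a + 1) (by omega)
      have h2 := hpos (a' + 1) (by omega)
      linarith [hx.1, hx.2, hx'.1, hx'.2]
    · simp only [Bool.false_eq_true, if_false, if_true, Set.mem_Ioo] at hx hx'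
      have h1 := hpos (a + 1) (by omega)
      have h2 := hpos (a' + 1) (by omega)
      linarith [hx.1, hx.2, hx'.1, hx'.2]
    · simp only [if_true, Set.mem_Ioo] at hx hx'
      have hab : a ≠ a' := fun h => hne (by rw [h])
      rcases lt_or_gt_of_ne hab with h | h
      · have := hanti (a + 1) a' (by omega) (by omega)
        linarith [hx.1, hx.2, hx'.1, hx'.2]
      · have := hanti (a' + 1) a (by omega) (by omega)
        linarith [hx.1, hx.2, hx'.1, hx'.2]
  · rintro ⟨a, s⟩ ht
    have ha : a ∈ S := (mem_product.1 ht).1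
    have h1 := hs a ha s
    cases s
    · simpa [zz, inv_neg] using h1
    · simp only [zz, if_true] at h1 ⊢
      rw [mul_comm]
      exact h1

lemma sum_split (c : ℕ → ℝ) (n A B : ℕ) (hB : B ≤ n + 1) :
    ∑ j ∈ range (n + 1), c j = ∑ j ∈ Ico A B, c j +
      ∑ j ∈ range (n + 1), if A ≤ j ∧ j < B then 0 else c j := by
  have h1 : ∑ j ∈ Ico A B, c j = ∑ j ∈ range (n + 1), if A ≤ j ∧ j < B then c j else 0 := by
    rw [← sum_filter]
    apply sum_congr _ fun _ _ => rfl
    ext j
    simp only [mem_Ico, mem_filter, mem_range]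
    omega
  rw [h1, ← sum_add_distrib]
  refine sum_congr rfl fun j _ => ?_
  split_ifs <;> simp

/-- the number of roots on the good event -/
lemma good_roots {Ω : Type*} {ξ : ℕ → Ω → ℝ} {ω : Ω} {n K r h : ℕ} {J : ℕ → ℕ}
    (hh : 0 < h) (hr : r ≤ K)
    (hJn : ∀ k < K, J (k + 1) ≤ n + 1)
    (hblock : ∀ k < K, ω ∈ blockEv ξ (fun i => (-1) ^ i) n (K * k + h) r (J k) (J (k + 1)))
    (hrest : ∀ k < K, ∀ i < r, ∀ s : Bool,
      |restT ξ n (K * k + h + i) (J k) (J (k + 1)) s ω| < 1 / 40 * sg (K * k + h + i)) :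
    2 * (K * (r - 1)) ≤ (∑ i ∈ range (n + 1),
      Polynomial.C (ξ i ω) * Polynomial.X ^ i : Polynomial ℝ).roots.card := by
  classical
  set S : Finset ℕ := ((range K) ×ˢ (range (r - 1))).image (fun t => K * t.1 + h + t.2) with hS
  have hcard : S.card = K * (r - 1) := by
    rw [hS, card_image_of_injOn, card_product, card_range, card_range]
    rintro ⟨k, i⟩ h1 ⟨k', i'⟩ h2 h3
    have hk := (mem_product.1 h1).2
    have hk' := (mem_product.1 h2).2
    simp only [mem_range] at hk hk'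
    simp only at h3
    have h4 : K * k + i = K * k' + i' := by omega
    have hKi : i < K := by omega
    have hKi' : i' < K := by omega
    have h5 : (K * k + i) / K = (K * k' + i') / K := by rw [h4]
    have hK0 : 0 < K := by omega
    rw [Nat.mul_add_div hK0, Nat.mul_add_div hK0, Nat.div_eq_of_lt hKi,
      Nat.div_eq_of_lt hKi'] at h5
    have h6 : k = k' := by omega
    subst h6
    have h7 : i = i' := by omega
    rw [h7]
  rw [← hcard]
  apply roots_ge (fun i => ξ i ω) n S
  · intro a ha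
    obtain ⟨⟨k, i⟩, _, rfl⟩ := mem_image.1 ha
    simp only
    omega
  · intro a ha s
    obtain ⟨⟨k, i⟩, hki, rfl⟩ := mem_image.1 ha
    have hk : k < K := mem_range.1 (mem_product.1 hki).1
    have hi : i < r - 1 := mem_range.1 (mem_product.1 hki).2
    simp only
    have key : ∀ i < r, 0 < (-1 : ℝ) ^ i *
        ∑ j ∈ range (n + 1), ξ (n - j) ω * zz s (K * k + h + i) ^ j := by
      intro i hi
      rw [sum_split (fun j => ξ (n - j) ω * zz s (K * k + h + i) ^ j) n (J k) (J (k + 1))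
        (hJn k hk), mul_add]
      have h1 := hblock k hk i hi s
      have h2 := hrest k hk i hi s
      have h3 : |(-1 : ℝ) ^ i * restT ξ n (K * k + h + i) (J k) (J (k + 1)) s ω| <
          1 / 40 * sg (K * k + h + i) := by
        rw [abs_mul, abs_pow, abs_neg, abs_one, one_pow, one_mul]
        exact h2
      have h4 := (abs_lt.1 h3).1
      unfold restT at h4
      simp only at h1
      linarith
    have h1 := key i (by omega)
    have h2 := key (i + 1) (by omega)
    rw [pow_succ, ← add_assoc] at h2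
    rcases neg_one_pow_eq_or ℝ i with h3 | h3
    · rw [h3] at h1 h2
      apply mul_neg_of_pos_of_neg
      · linarith
      · linarith
    · rw [h3] at h1 h2
      apply mul_neg_of_neg_of_pos
      · linarith
      · linarith

end H11Kac
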