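import Pool.Agent.H11Kac.Second
import Pool.Agent.H11Kac.Roots
import Mathlib

/-!
Assembling: the probability that no `n` in the window has many roots tends to `0`.
-/

open Finset MeasureTheory ProbabilityTheory Filter Topology

namespace H11Kac

lemma blockEv_meas {Ω : Type*} (ξ : ℕ → Ω → ℝ) (ε : ℕ → ℝ) (n a0 r A B : ℕ) (hB : B ≤ n) :
    MeasurableSet[mS ξ (Ioc (n - B) (n - A))] (blockEv ξ ε n a0 r A B) := by
  let _ : MeasurableSpace Ω := mS ξ (Ioc (n - B) (n - A))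
  have h1 : blockEv ξ ε n a0 r A B = ⋂ i ∈ range r, ⋂ s ∈ (univ : Finset Bool),
      {ω | 1 / 40 * sg (a0 + i) ≤ ε i * ∑ j ∈ Ico A B, ξ (n - j) ω * zz s (a0 + i) ^ j} := by
    ext ω
    simp [blockEv]
  rw [h1]
  apply Finset.measurableSet_biInter
  intro i _
  apply Finset.measurableSet_biInter
  intro s _
  apply measurableSet_le measurable_const
  apply Measurable.const_mul
  apply Finset.measurable_sum
  intro j hj
  rw [mem_Ico] at hj
  apply Measurable.mul_const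
  apply measurable_coord ξ
  rw [mem_Ioc]
  omega

noncomputable def rootsN {Ω : Type*} (ξ : ℕ → Ω → ℝ) (n : ℕ) (ω : Ω) : ℕ :=
  (∑ i ∈ range (n + 1), Polynomial.C (ξ i ω) * Polynomial.X ^ i : Polynomial ℝ).roots.card

variable {Ω : Type*} [mΩ : MeasurableSpace Ω] {P : Measure Ω} [IsProbabilityMeasure P]

lemma window {ξ : ℕ → Ω → ℝ} (hm : ∀ j, Measurable (ξ j)) (hind : iIndepFun ξ P)
    (hlaw : ∀ j, P.map (ξ j) = gaussianReal 0 1) {h : ℕ} (hh : 3 ≤ h) :
    P.real {ω | ∀ n ∈ Ico (22 ^ (h ^ 2 * (h ^ 2 + 1))) (2 * 22 ^ (h ^ 2 * (h ^ 2 + 1))),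
      rootsN ξ n ω < 2 * (h ^ 2 * (h ^ 2 - 2 * h - 1))} ≤
      2 * ((h ^ 2 : ℕ) * (0.8 : ℝ) ^ (h ^ 2)) +
        (22 : ℝ) ^ (h ^ 2 * (h ^ 2 + 1)) * ((h : ℝ) ^ 2 * ((h : ℝ) ^ 2 * 2)) *
          (2 * Real.exp (-(22 : ℝ) ^ h / 16000)) := by
  classical
  set K : ℕ := h ^ 2 with hK
  set r : ℕ := K - 2 * h with hr
  set N : ℕ := 22 ^ (K * (K + 1)) with hN
  set J : ℕ → ℕ := fun k => 22 ^ (K * k) with hJ
  set C : ℝ := (22 : ℝ) ^ h with hC
  have hK2h : 2 * h + 3 ≤ K := by rw [hK]; nlinarith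
  have hC5 : 5000 ≤ C := by
    rw [hC]
    calc (5000 : ℝ) ≤ 22 ^ 3 := by norm_num
      _ ≤ 22 ^ h := pow_le_pow_right₀ (by norm_num) hh
  have hJmono : Monotone J := by
    intro a b hab
    simp only [hJ]
    exact Nat.pow_le_pow_right (by norm_num) (Nat.mul_le_mul_left _ hab)
  have hJN : ∀ k < K, J (k + 1) ≤ N := by
    intro k hk
    simp only [hJ, hN]
    apply Nat.pow_le_pow_right (by norm_num)
    apply Nat.mul_le_mul_left
    omega
  have hNpos : 0 < N := by positivity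
  have hcondA : ∀ k, ∀ i, C * (J k : ℕ) ≤ (22 : ℝ) ^ (K * k + h + i) := by
    intro k i
    simp only [hJ, hC]
    push_cast
    rw [← pow_add]
    apply pow_le_pow_right₀ (by norm_num)
    omega
  have hcondB : ∀ k, ∀ i < r, C * (22 : ℝ) ^ (K * k + h + i) ≤ (J (k + 1) : ℕ) := by
    intro k i hi
    simp only [hJ, hC]
    push_cast
    rw [← pow_add]
    apply pow_le_pow_right₀ (by norm_num)
    rw [Nat.mul_add, Nat.mul_one]
    omega
  set E : ℕ → ℕ → Set Ω := fun n k => if J (k + 1) ≤ n then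
    blockEv ξ (fun i => (-1) ^ i) n (K * k + h) r (J k) (J (k + 1)) else Set.univ with hE
  have hEm : ∀ n k, MeasurableSet[mS ξ (Ioc (n - J (k + 1)) (n - J k))] (E n k) := by
    intro n k
    simp only [hE]
    split_ifs with h1
    · exact blockEv_meas ξ _ n _ r _ _ h1
    · exact MeasurableSet.univ
  have hprob : ∀ n ∈ Ico N (2 * N), ∀ k < K, (0.24 : ℝ) ^ (2 * r) ≤ P.real (E n k) := by
    intro n hn k hk
    have hn1 := (mem_Ico.1 hn).1
    have h1 : J (k + 1) ≤ n := (hJN k hk).trans hn1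
    simp only [hE, if_pos h1]
    have h2 := block_prob (P := P) hm hind hlaw (n := n) (a0 := K * k + h) (r := r) (A := J k)
      (B := J (k + 1)) (by omega) (hJmono (by omega)) (by omega) hC5
      (fun i _ => hcondA k i) (fun i hi => hcondB k i hi) (fun i => (-1) ^ i)
      (fun i => neg_one_pow_eq_or ℝ i)
    unfold Measure.real
    exact (ENNReal.ofReal_le_iff_le_toReal (measure_ne_top _ _)).1 h2
  have hmiss := miss_le (P := P) hm hind hJmono hEm (π := (0.24 : ℝ) ^ (2 * r)) (by positivity)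
    hNpos hprob
  have hmiss2 : P.real {ω | ∀ n ∈ Ico N (2 * N), ω ∉ lv E n 0 K} ≤
      2 * ((K : ℕ) * (0.8 : ℝ) ^ K) := by
    have h1 : ∑ m ∈ range K, 2 * (J (m + 1) : ℝ) * (((0.24 : ℝ) ^ (2 * r))⁻¹) ^ (K - m) ≤
        ∑ _m ∈ range K, 2 * ((N : ℝ) * 0.8 ^ K) := by
      apply sum_le_sum
      intro m hmK
      rw [mem_range] at hmK
      rw [mul_assoc]
      apply mul_le_mul_of_nonneg_left _ (by norm_num)
      have h2 : ((0.24 : ℝ) ^ (2 * r))⁻¹ ≤ (22 * 0.8) ^ K := by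
        rw [pow_mul, ← inv_pow]
        calc (((0.24 : ℝ) ^ 2)⁻¹) ^ r ≤ (22 * 0.8) ^ r :=
              pow_le_pow_left₀ (by positivity) (by norm_num) _
          _ ≤ (22 * 0.8) ^ K := pow_le_pow_right₀ (by norm_num) (by omega)
      calc (J (m + 1) : ℝ) * (((0.24 : ℝ) ^ (2 * r))⁻¹) ^ (K - m)
          ≤ (J (m + 1) : ℝ) * ((22 * 0.8) ^ K) ^ (K - m) := by
            apply mul_le_mul_of_nonneg_left _ (by positivity)
            exact pow_le_pow_left₀ (by positivity) h2 _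
        _ = (22 : ℝ) ^ (K * (m + 1) + K * (K - m)) * 0.8 ^ (K * (K - m)) := by
            simp only [hJ]
            push_cast
            rw [← pow_mul, mul_pow, pow_add]
            ring
        _ ≤ (N : ℝ) * 0.8 ^ K := by
            have h3 : K * (m + 1) + K * (K - m) = K * (K + 1) := by
              rw [← Nat.mul_add]
              congr 1
              omega
            rw [h3, hN]
            push_cast
            apply mul_le_mul_of_nonneg_left _ (by positivity)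
            apply pow_le_pow_of_le_one (by norm_num) (by norm_num)
            exact Nat.le_mul_of_pos_right _ (by omega)
    have hN' : (0 : ℝ) < N := by exact_mod_cast hNpos
    have h4 := hmiss.trans h1
    rw [sum_const, card_range, nsmul_eq_mul] at h4
    have h5 : P.real {ω | ∀ n ∈ Ico N (2 * N), ω ∉ lv E n 0 K} * N ≤
        (2 * ((K : ℕ) * (0.8 : ℝ) ^ K)) * N := by
      refine h4.trans (le_of_eq ?_)
      ring
    exact le_of_mul_le_mul_right h5 hN'
  set T : Finset (ℕ × ℕ × ℕ × Bool) :=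
    (Ico N (2 * N)) ×ˢ (range K) ×ˢ (range r) ×ˢ (univ : Finset Bool) with hT
  set Bad : ℕ × ℕ × ℕ × Bool → Set Ω := fun t =>
    {ω | 1 / 40 * sg (K * t.2.1 + h + t.2.2.1) ≤
      |restT ξ t.1 (K * t.2.1 + h + t.2.2.1) (J t.2.1) (J (t.2.1 + 1)) t.2.2.2 ω|} with hBad
  have hTcard : T.card = N * (K * (r * 2)) := by
    rw [hT, card_product, card_product, card_product, card_range, card_range, Nat.card_Ico,
      card_univ, Fintype.card_bool]
    congr 1
    omega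
  have hbad : P.real (⋃ t ∈ T, Bad t) ≤ (22 : ℝ) ^ (K * (K + 1)) *
      ((h : ℝ) ^ 2 * ((h : ℝ) ^ 2 * 2)) * (2 * Real.exp (-(22 : ℝ) ^ h / 16000)) := by
    calc P.real (⋃ t ∈ T, Bad t) ≤ ∑ t ∈ T, P.real (Bad t) := measureReal_biUnion_finset_le _ _
      _ ≤ ∑ _t ∈ T, 2 * Real.exp (-C / 16000) := by
          apply sum_le_sum
          rintro ⟨n, k, i, s⟩ ht
          have hi : i < r := mem_range.1 (mem_product.1 (mem_product.1 (mem_product.1 ht).2).2).1
          exact rest_prob hm hind hlaw n s hC5 (hcondA k i) (hcondB k i hi)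
      _ = ((N * (K * (r * 2)) : ℕ) : ℝ) * (2 * Real.exp (-C / 16000)) := by
          rw [sum_const, hTcard, nsmul_eq_mul]
      _ ≤ _ := by
          apply mul_le_mul_of_nonneg_right _ (by positivity)
          have hrK : (r : ℝ) ≤ (h : ℝ) ^ 2 := by
            have : r ≤ K := by omega
            calc (r : ℝ) ≤ (K : ℝ) := by exact_mod_cast this
              _ = (h : ℝ) ^ 2 := by rw [hK]; push_cast; ring
          have hKr : (K : ℝ) = (h : ℝ) ^ 2 := by rw [hK]; push_cast; ring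
          rw [hN]
          push_cast
          rw [← hKr] at hrK ⊢
          gcongr
  have hsub : {ω | ∀ n ∈ Ico N (2 * N), rootsN ξ n ω < 2 * (K * (K - 2 * h - 1))} ⊆
      {ω | ∀ n ∈ Ico N (2 * N), ω ∉ lv E n 0 K} ∪ ⋃ t ∈ T, Bad t := by
    intro ω hω
    by_contra hcon
    rw [Set.mem_union, not_or] at hcon
    obtain ⟨h1, h2⟩ := hcon
    simp only [Set.mem_ofPred_eq] at h1 hω
    push Not at h1
    obtain ⟨n, hn, hlv⟩ := h1
    have hnN := (mem_Ico.1 hn).1
    have h3 := hω n hn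
    have h4 := good_roots (ξ := ξ) (ω := ω) (n := n) (K := K) (r := r) (h := h) (J := J)
      (by omega) (by omega) (fun k hk => by have := hJN k hk; omega)
      (by
        intro k hk
        have h5 := hlv k (Nat.zero_le _) hk
        have h6 : J (k + 1) ≤ n := (hJN k hk).trans hnN
        simpa only [hE, if_pos h6] using h5)
      (by
        intro k hk i hi s
        by_contra hge
        push Not at hge
        apply h2
        rw [Set.mem_iUnion₂]
        refine ⟨(n, k, i, s), ?_, hge⟩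
        rw [hT]
        simp only [mem_product, mem_range, mem_univ, and_true]
        exact ⟨hn, hk, hi⟩)
    unfold rootsN at h3
    have h7 : K - 2 * h - 1 = r - 1 := by rw [hr]
    rw [h7] at h3
    exact absurd h4 (not_le.2 h3)
  calc _ ≤ P.real ({ω | ∀ n ∈ Ico N (2 * N), ω ∉ lv E n 0 K} ∪ ⋃ t ∈ T, Bad t) :=
        measureReal_mono hsub
    _ ≤ _ := measureReal_union_le _ _
    _ ≤ _ := add_le_add hmiss2 hbad

lemma bound_tendsto : Tendsto (fun h : ℕ => 2 * ((h ^ 2 : ℕ) * (0.8 : ℝ) ^ (h ^ 2)) +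
        (22 : ℝ) ^ (h ^ 2 * (h ^ 2 + 1)) * ((h : ℝ) ^ 2 * ((h : ℝ) ^ 2 * 2)) *
          (2 * Real.exp (-(22 : ℝ) ^ h / 16000))) atTop (𝓝 0) := by
  have h1 : Tendsto (fun h : ℕ => 2 * ((h ^ 2 : ℕ) * (0.8 : ℝ) ^ (h ^ 2))) atTop (𝓝 0) := by
    have h2 := tendsto_self_mul_const_pow_of_lt_one (r := 0.8) (by norm_num) (by norm_num)
    have h3 : Tendsto (fun h : ℕ => h ^ 2) atTop atTop := tendsto_pow_atTop (by norm_num)
    have h4 := (h2.comp h3).const_mul 2
    simpa using h4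
  have h5 : Tendsto (fun h : ℕ => 4 * Real.exp (-(h : ℝ))) atTop (𝓝 0) := by
    have h6 : Tendsto (fun h : ℕ => Real.exp (-(h : ℝ))) atTop (𝓝 0) :=
      Real.tendsto_exp_neg_atTop_nhds_zero.comp tendsto_natCast_atTop_atTop
    simpa using h6.const_mul 4
  have h7 : Tendsto (fun h : ℕ => (22 : ℝ) ^ (h ^ 2 * (h ^ 2 + 1)) *
      ((h : ℝ) ^ 2 * ((h : ℝ) ^ 2 * 2)) * (2 * Real.exp (-(22 : ℝ) ^ h / 16000))) atTop (𝓝 0) := by
    apply squeeze_zero' (Eventually.of_forall fun h => by positivity) _ h5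
    have h8 := tendsto_pow_const_div_const_pow_of_one_lt 5 (show (1 : ℝ) < 22 by norm_num)
    have h9 := h8.eventually (gt_mem_nhds (show (0 : ℝ) < 1 / 16000 by norm_num))
    filter_upwards [h9, eventually_ge_atTop 20] with h h10 h11
    have h12 : (h : ℝ) ^ 5 ≤ 22 ^ h / 16000 := by
      rw [div_lt_div_iff₀ (by positivity) (by norm_num)] at h10
      rw [le_div_iff₀ (by norm_num)]
      linarith
    have h13 : (20 : ℝ) ≤ h := by exact_mod_cast h11
    have h14 : 4 * ((h : ℝ) ^ 2 * ((h : ℝ) ^ 2 + 1)) + 5 * h ≤ (h : ℝ) ^ 5 := by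
      have h15 : 20 * (h : ℝ) ^ 4 ≤ (h : ℝ) ^ 5 := by
        calc 20 * (h : ℝ) ^ 4 ≤ (h : ℝ) * (h : ℝ) ^ 4 := by gcongr
          _ = (h : ℝ) ^ 5 := by ring
      have h16 : (h : ℝ) ≤ h ^ 4 := by
        calc (h : ℝ) = h * 1 := by ring
          _ ≤ h * h ^ 3 := by
              gcongr
              exact one_le_pow₀ (by linarith)
          _ = h ^ 4 := by ring
      have h17 : (h : ℝ) ^ 2 ≤ h ^ 4 := by
        apply pow_le_pow_right₀ (by linarith) (by norm_num)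
      nlinarith
    have h18 : (22 : ℝ) ^ (h ^ 2 * (h ^ 2 + 1)) ≤
        Real.exp (4 * ((h : ℝ) ^ 2 * ((h : ℝ) ^ 2 + 1))) := by
      have h19 : (22 : ℝ) ≤ Real.exp 4 := by
        have := Real.exp_one_gt_d9
        have h20 : Real.exp 4 = Real.exp 1 ^ 4 := by
          rw [← Real.exp_nat_mul]; norm_num
        rw [h20]
        calc (22 : ℝ) ≤ 2.7 ^ 4 := by norm_num
          _ ≤ _ := by gcongr; linarith
      calc (22 : ℝ) ^ (h ^ 2 * (h ^ 2 + 1)) ≤ (Real.exp 4) ^ (h ^ 2 * (h ^ 2 + 1)) := by gcongr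
        _ = _ := by
            rw [← Real.exp_nat_mul]
            congr 1
            push_cast
            ring
    have h20 : (h : ℝ) ^ 2 * ((h : ℝ) ^ 2 * 2) ≤ 2 * Real.exp (4 * h) := by
      have h21 : (h : ℝ) ≤ Real.exp h := by
        have := Real.add_one_le_exp (h : ℝ)
        linarith
      calc (h : ℝ) ^ 2 * ((h : ℝ) ^ 2 * 2) = 2 * (h : ℝ) ^ 4 := by ring
        _ ≤ 2 * (Real.exp h) ^ 4 := by gcongr
        _ = _ := by
            rw [← Real.exp_nat_mul]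
            norm_num
    calc (22 : ℝ) ^ (h ^ 2 * (h ^ 2 + 1)) * ((h : ℝ) ^ 2 * ((h : ℝ) ^ 2 * 2)) *
          (2 * Real.exp (-(22 : ℝ) ^ h / 16000))
        ≤ Real.exp (4 * ((h : ℝ) ^ 2 * ((h : ℝ) ^ 2 + 1))) * (2 * Real.exp (4 * h)) *
          (2 * Real.exp (-(22 : ℝ) ^ h / 16000)) := by gcongr
      _ = 4 * Real.exp (4 * ((h : ℝ) ^ 2 * ((h : ℝ) ^ 2 + 1)) + 4 * h +
            -(22 : ℝ) ^ h / 16000) := by
          rw [Real.exp_add, Real.exp_add]
          ring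
      _ ≤ 4 * Real.exp (-(h : ℝ)) := by
          gcongr
          have h22 : -(22 : ℝ) ^ h / 16000 = -((22 : ℝ) ^ h / 16000) := by ring
          rw [h22]
          linarith
  simpa using h1.add h7

lemma log22 : Real.log 22 < 3.1 := by
  rw [Real.log_lt_iff_lt_exp (by norm_num)]
  have h1 := Real.exp_one_gt_d9
  have h2 : Real.exp 3.1 = Real.exp 1 ^ 3 * Real.exp 0.1 := by
    rw [← Real.exp_nat_mul, ← Real.exp_add]
    norm_num
  rw [h2]
  have h3 := Real.add_one_le_exp (0.1 : ℝ)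
  calc (22 : ℝ) < 2.718 ^ 3 * (0.1 + 1) := by norm_num
    _ ≤ _ := by
        gcongr
        linarith

lemma ratio_big {h n m : ℕ} (hh : 300 ≤ h)
    (hn : n ∈ Ico (22 ^ (h ^ 2 * (h ^ 2 + 1))) (2 * 22 ^ (h ^ 2 * (h ^ 2 + 1))))
    (hm : 2 * (h ^ 2 * (h ^ 2 - 2 * h - 1)) ≤ m) : 0.64 ≤ (m : ℝ) / Real.log n := by
  rw [mem_Ico] at hn
  have hn1 : 1 < n := by
    refine lt_of_lt_of_le ?_ hn.1
    apply Nat.one_lt_pow
    · positivity
    · norm_num
  have hlog : 0 < Real.log n := Real.log_pos (by exact_mod_cast hn1)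
  rw [le_div_iff₀ hlog]
  have h1 : Real.log n ≤ ((h : ℝ) ^ 4 + h ^ 2 + 1) * Real.log 22 := by
    have h2 : (n : ℝ) ≤ 22 ^ (h ^ 2 * (h ^ 2 + 1) + 1) := by
      have h3 : n ≤ 22 ^ (h ^ 2 * (h ^ 2 + 1) + 1) := by
        rw [pow_succ]
        omega
      exact_mod_cast h3
    have h4 := Real.log_le_log (by positivity) h2
    rw [Real.log_pow] at h4
    refine h4.trans (le_of_eq ?_)
    push_cast
    ring
  have h5 := log22
  have h6 : (300 : ℝ) ≤ h := by exact_mod_cast hh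
  have h7 : ((h ^ 2 - 2 * h - 1 : ℕ) : ℝ) = (h : ℝ) ^ 2 - 2 * h - 1 := by
    have h8 : 2 * h + 1 ≤ h ^ 2 := by nlinarith
    rw [Nat.cast_sub (by omega), Nat.cast_sub (by omega)]
    push_cast
    ring
  have h9 : 2 * ((h : ℝ) ^ 2 * ((h : ℝ) ^ 2 - 2 * h - 1)) ≤ m := by
    rw [← h7]
    exact_mod_cast hm
  refine le_trans ?_ h9
  have h10 : Real.log n ≤ ((h : ℝ) ^ 4 + h ^ 2 + 1) * 3.1 := by
    refine h1.trans ?_
    gcongr
  have h11 : 300 * (h : ℝ) ^ 3 ≤ h ^ 4 := by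
    calc 300 * (h : ℝ) ^ 3 ≤ (h : ℝ) * (h : ℝ) ^ 3 := by gcongr
      _ = (h : ℝ) ^ 4 := by ring
  have h12 : 300 * (h : ℝ) ^ 2 ≤ h ^ 3 := by
    calc 300 * (h : ℝ) ^ 2 ≤ (h : ℝ) * (h : ℝ) ^ 2 := by gcongr
      _ = (h : ℝ) ^ 3 := by ring
  nlinarith

theorem not_ae_tendsto {ξ : ℕ → Ω → ℝ} (hm : ∀ j, Measurable (ξ j)) (hind : iIndepFun ξ P)
    (hlaw : ∀ j, P.map (ξ j) = gaussianReal 0 1) :
    ¬ ∀ᵐ ω ∂P, Tendsto (fun n : ℕ => (rootsN ξ n ω : ℝ) / Real.log n) atTop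
      (𝓝 (2 / Real.pi)) := by
  intro hae
  set G : ℕ → Set Ω := fun h =>
    {ω | ∀ n ∈ Ico (22 ^ (h ^ 2 * (h ^ 2 + 1))) (2 * 22 ^ (h ^ 2 * (h ^ 2 + 1))),
      rootsN ξ n ω < 2 * (h ^ 2 * (h ^ 2 - 2 * h - 1))} with hG
  have h1 : {ω | Tendsto (fun n : ℕ => (rootsN ξ n ω : ℝ) / Real.log n) atTop
      (𝓝 (2 / Real.pi))} ⊆ ⋃ H : ℕ, ⋂ h ∈ Set.Ici H, G h := by
    intro ω hω
    have h2 : 2 / Real.pi < 0.64 := by
      have := Real.pi_gt_d2
      rw [div_lt_iff₀ (by positivity)]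
      linarith
    have h3 := (show Tendsto (fun n : ℕ => (rootsN ξ n ω : ℝ) / Real.log n) atTop
      (𝓝 (2 / Real.pi)) from hω).eventually (gt_mem_nhds h2)
    obtain ⟨n0, hn0⟩ := eventually_atTop.1 h3
    rw [Set.mem_iUnion]
    refine ⟨max 300 n0, ?_⟩
    rw [Set.mem_iInter₂]
    intro h hh n hn
    rw [Set.mem_Ici] at hh
    have hh1 : 300 ≤ h := le_trans (le_max_left _ _) hh
    have hh2 : n0 ≤ h := le_trans (le_max_right _ _) hh
    by_contra hcon
    push Not at hcon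
    have h4 := ratio_big hh1 hn hcon
    have h5 : n0 ≤ n := by
      have h6 := (mem_Ico.1 hn).1
      have h7 : h ≤ 22 ^ (h ^ 2 * (h ^ 2 + 1)) := by
        calc h ≤ h ^ 2 * (h ^ 2 + 1) := by nlinarith [sq_nonneg h, Nat.le_self_pow two_ne_zero h]
          _ ≤ _ := (Nat.lt_pow_self (by norm_num)).le
      omega
    have h6 := hn0 n h5
    linarith
  have h2 : P (⋃ H : ℕ, ⋂ h ∈ Set.Ici H, G h) = 0 := by
    rw [measure_iUnion_null_iff]
    intro H
    have h3 : P.real (⋂ h ∈ Set.Ici H, G h) ≤ 0 := by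
      apply ge_of_tendsto bound_tendsto
      filter_upwards [eventually_ge_atTop H, eventually_ge_atTop 3] with h h4 h5
      refine le_trans ?_ (window (P := P) hm hind hlaw h5)
      exact measureReal_mono (Set.biInter_subset_of_mem h4)
    have h4 := le_antisymm h3 measureReal_nonneg
    rwa [measureReal_eq_zero_iff] at h4
  have h3 : P {ω | Tendsto (fun n : ℕ => (rootsN ξ n ω : ℝ) / Real.log n) atTop
      (𝓝 (2 / Real.pi))} = 0 := measure_mono_null h1 h2
  have h4 := ae_iff.1 hae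
  have h5 : P Set.univ ≤ 0 := by
    calc P Set.univ ≤ P ({ω | Tendsto (fun n : ℕ => (rootsN ξ n ω : ℝ) / Real.log n) atTop
      (𝓝 (2 / Real.pi))} ∪ {ω | ¬ Tendsto (fun n : ℕ => (rootsN ξ n ω : ℝ) / Real.log n) atTop
      (𝓝 (2 / Real.pi))}) := measure_mono (by intro ω _; exact em _)
      _ ≤ _ := measure_union_le _ _
      _ = 0 := by rw [h3, h4, add_zero]
  simp at h5

end H11Kac
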