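import Mathlib

/-!
Quadratic form bounds.
-/

namespace H11Kac

open Finset

/-- distance on naturals -/
def dd (i k : ℕ) : ℕ := (i - k) + (k - i)

lemma dd_comm (i k : ℕ) : dd i k = dd k i := by unfold dd; omega
lemma dd_self (i : ℕ) : dd i i = 0 := by unfold dd; omega
lemma dd_of_le {i k : ℕ} (h : i ≤ k) : dd i k = k - i := by unfold dd; omega

/-- discounted partial sums -/
noncomputable def uu (q : ℝ) (c : ℕ → ℝ) : ℕ → ℝ
  | 0 => 0
  | r + 1 => c r + q * uu q c r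

lemma uu_eq (q : ℝ) (c : ℕ → ℝ) (r : ℕ) : ∑ i ∈ range r, q ^ (r - i) * c i = q * uu q c r := by
  induction r with
  | zero => simp [uu]
  | succ r ih =>
    rw [sum_range_succ, uu, mul_add, ← ih, mul_sum, add_comm]
    congr 1
    · simp
    · refine sum_congr rfl fun i hi => ?_
      have := mem_range.1 hi
      rw [show r + 1 - i = (r - i) + 1 by omega, pow_succ]
      ring

/-- the quadratic form -/
noncomputable def FF (q : ℝ) (c : ℕ → ℝ) (r : ℕ) : ℝ :=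
  ∑ i ∈ range r, ∑ k ∈ range r, q ^ dd i k * (c i * c k)

lemma FF_succ (q : ℝ) (c : ℕ → ℝ) (r : ℕ) :
    FF q c (r + 1) = FF q c r + 2 * c r * (q * uu q c r) + c r ^ 2 := by
  unfold FF
  rw [sum_range_succ]
  simp_rw [sum_range_succ]
  rw [sum_add_distrib, dd_self, pow_zero, one_mul]
  have h1 : ∑ x ∈ range r, q ^ dd x r * (c x * c r) = c r * (q * uu q c r) := by
    rw [← uu_eq, mul_sum]
    refine sum_congr rfl fun i hi => ?_
    rw [dd_of_le (mem_range.1 hi).le]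
    ring
  have h2 : ∑ x ∈ range r, q ^ dd r x * (c r * c x) = c r * (q * uu q c r) := by
    rw [← uu_eq, mul_sum]
    refine sum_congr rfl fun i hi => ?_
    rw [dd_comm, dd_of_le (mem_range.1 hi).le]
    ring
  rw [h1, h2]
  ring

lemma FF_ge {q : ℝ} (h0 : 0 ≤ q) (h1 : q < 1) (c : ℕ → ℝ) (r : ℕ) :
    (1 - q) * ∑ i ∈ range r, c i ^ 2 + q * (1 + q) * uu q c r ^ 2 ≤ (1 + q) * FF q c r := by
  induction r with
  | zero => simp [uu, FF]
  | succ r ih =>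
    rw [sum_range_succ, FF_succ, uu]
    nlinarith [mul_nonneg (mul_nonneg (sub_nonneg.2 h1.le) h0)
      (sq_nonneg (c r + q * uu q c r + uu q c r))]

lemma FF_ge' {q : ℝ} (h0 : 0 ≤ q) (h1 : q < 1) (c : ℕ → ℝ) (r : ℕ) :
    (1 - q) * ∑ i ∈ range r, c i ^ 2 ≤ (1 + q) * FF q c r := by
  have := FF_ge h0 h1 c r
  have h2 : 0 ≤ q * (1 + q) * uu q c r ^ 2 := by positivity
  linarith

lemma row1 (ρ : ℝ) (i r : ℕ) (h : r ≤ i) :
    (1 - ρ) * ∑ k ∈ range r, ρ ^ dd i k = ρ ^ (i - r + 1) - ρ ^ (i + 1) := by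
  induction r with
  | zero => simp
  | succ r ih =>
    rw [sum_range_succ, mul_add, ih (by omega), dd_comm, dd_of_le (by omega)]
    rw [show i - (r + 1) + 1 = i - r by omega, show i - r + 1 = (i - r) + 1 by omega, pow_succ]
    ring

lemma row2 (ρ : ℝ) (i m : ℕ) :
    (1 - ρ) * ∑ k ∈ range (i + m), ρ ^ dd i k = (ρ - ρ ^ (i + 1)) + (1 - ρ ^ m) := by
  induction m with
  | zero => rw [add_zero, row1 _ _ _ le_rfl]; simp
  | succ m ih =>
    rw [← add_assoc, sum_range_succ, mul_add, ih, dd_of_le (by omega), Nat.add_sub_cancel_left,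
      pow_succ ρ m]
    ring

lemma row_sum {ρ : ℝ} (h0 : 0 ≤ ρ) (h1 : ρ < 1) (i r : ℕ) :
    ∑ k ∈ range r, ρ ^ dd i k ≤ (1 + ρ) / (1 - ρ) := by
  rw [le_div_iff₀ (by linarith), mul_comm]
  rcases le_total r i with h | h
  · rw [row1 _ _ _ h]
    have h2 : ρ ^ (i - r + 1) ≤ 1 := pow_le_one₀ h0 h1.le
    have h3 : 0 ≤ ρ ^ (i + 1) := by positivity
    linarith
  · obtain ⟨m, rfl⟩ := Nat.exists_eq_add_of_le h
    rw [row2]
    have h2 : 0 ≤ ρ ^ m := by positivity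
    have h3 : 0 ≤ ρ ^ (i + 1) := by positivity
    linarith

lemma schur {ρ : ℝ} (h0 : 0 ≤ ρ) (h1 : ρ < 1) (c : ℕ → ℝ) (r : ℕ) :
    ∑ i ∈ range r, ∑ k ∈ range r, ρ ^ dd i k * |c i * c k| ≤
      (1 + ρ) / (1 - ρ) * ∑ i ∈ range r, c i ^ 2 := by
  have h2 : ∑ i ∈ range r, ∑ k ∈ range r, ρ ^ dd i k * |c i * c k| ≤
      ∑ i ∈ range r, ∑ k ∈ range r, (ρ ^ dd i k * c i ^ 2 / 2 + ρ ^ dd i k * c k ^ 2 / 2) := by
    refine sum_le_sum fun i _ => sum_le_sum fun k _ => ?_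
    have h3 : |c i * c k| ≤ (c i ^ 2 + c k ^ 2) / 2 := by
      rw [abs_le]
      constructor <;> nlinarith [sq_nonneg (c i + c k), sq_nonneg (c i - c k)]
    have h4 : 0 ≤ ρ ^ dd i k := by positivity
    nlinarith [mul_le_mul_of_nonneg_left h3 h4]
  refine h2.trans ?_
  simp_rw [sum_add_distrib]
  have h5 : ∑ i ∈ range r, ∑ k ∈ range r, ρ ^ dd i k * c k ^ 2 / 2 =
      ∑ i ∈ range r, ∑ k ∈ range r, ρ ^ dd i k * c i ^ 2 / 2 := by
    rw [sum_comm]
    refine sum_congr rfl fun i _ => sum_congr rfl fun k _ => ?_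
    rw [dd_comm]
  rw [h5, ← sum_add_distrib, mul_sum]
  refine sum_le_sum fun i _ => ?_
  rw [← sum_add_distrib]
  have h6 : ∑ k ∈ range r, (ρ ^ dd i k * c i ^ 2 / 2 + ρ ^ dd i k * c i ^ 2 / 2) =
      (∑ k ∈ range r, ρ ^ dd i k) * c i ^ 2 := by
    rw [sum_mul]
    refine sum_congr rfl fun k _ => by ring
  rw [h6]
  exact mul_le_mul_of_nonneg_right (row_sum h0 h1 i r) (sq_nonneg _)

end H11Kac
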