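import Mathlib

/-!
Second moment method for tree-like families of events.
-/

open MeasureTheory ProbabilityTheory Finset
open scoped ENNReal NNReal

namespace H11Kac

variable {Ω : Type*} [mΩ : MeasurableSpace Ω] {P : Measure Ω} [IsProbabilityMeasure P]

lemma second_moment (I : Finset ℕ) (A : ℕ → Set Ω) (hA : ∀ n ∈ I, MeasurableSet (A n))
    (hpos : ∀ n ∈ I, 0 < P.real (A n)) {R : ℝ}
    (hR : ∑ n ∈ I, ∑ m ∈ I, (P.real (A n ∩ A m) / (P.real (A n) * P.real (A m)) - 1) ≤ R) :
    P.real {ω | ∀ n ∈ I, ω ∉ A n} * (I.card : ℝ) ^ 2 ≤ R := by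
  set Y : Ω → ℝ := fun ω => ∑ n ∈ I, (P.real (A n))⁻¹ * (A n).indicator (fun _ => (1 : ℝ)) ω
    with hY
  set N : ℝ := ((I.card : ℕ) : ℝ) with hN
  have hmeasI : ∀ n ∈ I, Measurable ((A n).indicator (fun _ => (1 : ℝ))) := fun n hn =>
    measurable_const.indicator (hA n hn)
  have hint : ∀ n ∈ I, Integrable ((A n).indicator (fun _ => (1 : ℝ))) P := fun n hn =>
    (integrable_const (1 : ℝ)).indicator (hA n hn)
  have hintY : Integrable Y P := by
    apply integrable_finsetSum
    intro n hn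
    exact (hint n hn).const_mul _
  have hEY : ∫ ω, Y ω ∂P = N := by
    rw [hY, integral_finsetSum _ (fun n hn => (hint n hn).const_mul _)]
    have : ∀ n ∈ I, ∫ ω, (P.real (A n))⁻¹ * (A n).indicator (fun _ => (1 : ℝ)) ω ∂P = 1 := by
      intro n hn
      rw [integral_const_mul, integral_indicator_const _ (hA n hn), smul_eq_mul, mul_one]
      exact inv_mul_cancel₀ (hpos n hn).ne'
    rw [sum_congr rfl this]
    simp [hN]
  have hYsq : ∀ ω, Y ω ^ 2 = ∑ n ∈ I, ∑ m ∈ I, (P.real (A n))⁻¹ * (P.real (A m))⁻¹ *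
      (A n ∩ A m).indicator (fun _ => (1 : ℝ)) ω := by
    intro ω
    rw [sq, hY, sum_mul_sum]
    refine sum_congr rfl fun n _ => sum_congr rfl fun m _ => ?_
    have : (A n ∩ A m).indicator (fun _ => (1 : ℝ)) ω =
        (A n).indicator (fun _ => (1 : ℝ)) ω * (A m).indicator (fun _ => (1 : ℝ)) ω := by
      by_cases h1 : ω ∈ A n <;> by_cases h2 : ω ∈ A m <;> simp [h1, h2]
    rw [this]
    ring
  have hint2 : ∀ n ∈ I, ∀ m ∈ I, Integrable ((A n ∩ A m).indicator (fun _ => (1 : ℝ))) P :=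
    fun n hn m hm => (integrable_const (1 : ℝ)).indicator ((hA n hn).inter (hA m hm))
  have hintY2 : Integrable (fun ω => Y ω ^ 2) P := by
    simp_rw [hYsq]
    apply integrable_finsetSum
    intro n hn
    apply integrable_finsetSum
    intro m hm
    exact (hint2 n hn m hm).const_mul _
  have hEY2 : ∫ ω, Y ω ^ 2 ∂P =
      ∑ n ∈ I, ∑ m ∈ I, P.real (A n ∩ A m) / (P.real (A n) * P.real (A m)) := by
    simp_rw [hYsq]
    rw [integral_finsetSum _ (fun n hn => integrable_finsetSum _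
      fun m hm => (hint2 n hn m hm).const_mul _)]
    refine sum_congr rfl fun n hn => ?_
    rw [integral_finsetSum _ (fun m hm => (hint2 n hn m hm).const_mul _)]
    refine sum_congr rfl fun m hm => ?_
    rw [integral_const_mul, integral_indicator_const _ ((hA n hn).inter (hA m hm)), smul_eq_mul,
      mul_one, div_eq_mul_inv, mul_inv]
    ring
  set S : Set Ω := {ω | ∀ n ∈ I, ω ∉ A n} with hS
  have hSm : MeasurableSet S := by
    have : S = ⋂ n ∈ I, (A n)ᶜ := by
      ext ω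
      simp [hS]
    rw [this]
    exact Finset.measurableSet_biInter _ fun n hn => (hA n hn).compl
  have hvar : ∫ ω, (Y ω - N) ^ 2 ∂P ≤ R := by
    have e : ∀ ω, (Y ω - N) ^ 2 = Y ω ^ 2 - (2 * N) * Y ω + N ^ 2 := fun ω => by ring
    simp_rw [e]
    have hI1 : Integrable (fun ω => Y ω ^ 2 - 2 * N * Y ω) P := hintY2.sub (hintY.const_mul _)
    rw [integral_add hI1 (integrable_const _),
      integral_sub hintY2 (hintY.const_mul _), integral_const_mul, hEY, hEY2, integral_const]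
    simp only [probReal_univ, smul_eq_mul, one_mul]
    have h3 : ∑ n ∈ I, ∑ m ∈ I, (P.real (A n ∩ A m) / (P.real (A n) * P.real (A m)) - 1) =
        ∑ n ∈ I, ∑ m ∈ I, P.real (A n ∩ A m) / (P.real (A n) * P.real (A m)) - N ^ 2 := by
      simp_rw [sum_sub_distrib]
      simp [hN, sq]
    rw [h3] at hR
    linarith
  have hlow : P.real S * N ^ 2 ≤ ∫ ω, (Y ω - N) ^ 2 ∂P := by
    have h4 : ∫ ω, S.indicator (fun _ => N ^ 2) ω ∂P = P.real S * N ^ 2 := by
      rw [integral_indicator_const _ hSm, smul_eq_mul]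
    rw [← h4]
    apply integral_mono ((integrable_const _).indicator hSm)
    · have e : (fun ω => (Y ω - N) ^ 2) = fun ω => Y ω ^ 2 - (2 * N) * Y ω + N ^ 2 := by
        funext ω; ring
      rw [e]
      exact (hintY2.sub (hintY.const_mul _)).add (integrable_const _)
    · intro ω
      by_cases hω : ω ∈ S
      · rw [Set.indicator_of_mem hω]
        have : Y ω = 0 := by
          rw [hY]
          apply sum_eq_zero
          intro n hn
          rw [Set.indicator_of_notMem (hω n hn), mul_zero]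
        simp only [this]
        nlinarith
      · rw [Set.indicator_of_notMem hω]
        positivity
  exact hlow.trans hvar

/-- sigma-algebra generated by finitely many coordinates -/
@[reducible] def mS (ξ : ℕ → Ω → ℝ) (S : Finset ℕ) : MeasurableSpace Ω :=
  MeasurableSpace.comap (fun ω (i : S) => ξ i ω) MeasurableSpace.pi

omit mΩ in
lemma measurable_coord (ξ : ℕ → Ω → ℝ) {S : Finset ℕ} {i : ℕ} (hi : i ∈ S) :
    Measurable[mS ξ S] (ξ i) := by
  have h1 : Measurable[mS ξ S] (fun ω (i : S) => ξ i ω) := comap_measurable _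
  exact (measurable_pi_apply (⟨i, hi⟩ : S)).comp h1

omit mΩ in
lemma mS_mono (ξ : ℕ → Ω → ℝ) {S T : Finset ℕ} (h : S ⊆ T) : mS ξ S ≤ mS ξ T := by
  unfold mS
  rw [← measurable_iff_comap_le]
  let _ := MeasurableSpace.comap (fun ω (i : T) => ξ i ω) MeasurableSpace.pi
  rw [measurable_pi_iff]
  intro i
  exact measurable_coord ξ (h i.2)

lemma mS_le {ξ : ℕ → Ω → ℝ} (hm : ∀ j, Measurable (ξ j)) (S : Finset ℕ) : mS ξ S ≤ mΩ := by
  unfold mS
  rw [← measurable_iff_comap_le]
  fun_prop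

lemma indep_mul {ξ : ℕ → Ω → ℝ} (hm : ∀ j, Measurable (ξ j)) (hind : iIndepFun ξ P)
    {S T : Finset ℕ} (hST : Disjoint S T) {U V : Set Ω} (hU : MeasurableSet[mS ξ S] U)
    (hV : MeasurableSet[mS ξ T] V) : P.real (U ∩ V) = P.real U * P.real V := by
  have h := hind.indepFun_finset S T hST hm
  have h2 : Indep (mS ξ S) (mS ξ T) P := h
  have h3 := (Indep_iff _ _ _).1 h2 U V hU hV
  unfold Measure.real
  rw [h3, ENNReal.toReal_mul]

section tree

variable {ξ : ℕ → Ω → ℝ} {J : ℕ → ℕ} {E : ℕ → ℕ → Set Ω}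

/-- intersection of levels -/
def lv (E : ℕ → ℕ → Set Ω) (n a b : ℕ) : Set Ω := {ω | ∀ k, a ≤ k → k < b → ω ∈ E n k}

omit mΩ in
lemma lv_succ (n a b : ℕ) (h : a ≤ b) : lv E n a (b + 1) = lv E n a b ∩ E n b := by
  ext ω
  constructor
  · intro hω
    exact ⟨fun k h1 h2 => hω k h1 (by omega), hω b h (by omega)⟩
  · rintro ⟨h1, h2⟩ k hk1 hk2
    rcases Nat.lt_succ_iff_lt_or_eq.1 hk2 with h3 | rfl
    · exact h1 k hk1 h3
    · exact h2

omit mΩ in
lemma lv_split (n a b c : ℕ) (h1 : a ≤ b) (h2 : b ≤ c) :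
    lv E n a c = lv E n a b ∩ lv E n b c := by
  ext ω
  constructor
  · intro hω
    exact ⟨fun k h3 h4 => hω k h3 (by omega), fun k h3 h4 => hω k (by omega) h4⟩
  · rintro ⟨h3, h4⟩ k hk1 hk2
    rcases lt_or_ge k b with h5 | h5
    · exact h3 k hk1 h5
    · exact h4 k h5 hk2

omit mΩ in
lemma lv_meas (hJ : Monotone J) (n : ℕ)
    (hE : ∀ k, MeasurableSet[mS ξ (Ioc (n - J (k + 1)) (n - J k))] (E n k)) (a b : ℕ)
    (hab : a ≤ b) : MeasurableSet[mS ξ (Ioc (n - J b) (n - J a))] (lv E n a b) := by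
  have : lv E n a b = ⋂ k ∈ Ico a b, E n k := by
    ext ω
    simp [lv]
  rw [this]
  apply Finset.measurableSet_biInter
  intro k hk
  rw [mem_Ico] at hk
  refine mS_mono ξ ?_ _ (hE k)
  apply Ioc_subset_Ioc
  · have := hJ (show k + 1 ≤ b by omega)
    omega
  · have := hJ hk.1
    omega

lemma lv_prob (hm : ∀ j, Measurable (ξ j)) (hind : iIndepFun ξ P) (hJ : Monotone J) (n : ℕ)
    (hE : ∀ k, MeasurableSet[mS ξ (Ioc (n - J (k + 1)) (n - J k))] (E n k)) {π : ℝ} (hπ0 : 0 ≤ π)
    {K : ℕ} (hπ : ∀ k < K, π ≤ P.real (E n k)) (a d : ℕ) (hd : a + d ≤ K) :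
    π ^ d ≤ P.real (lv E n a (a + d)) := by
  induction d with
  | zero =>
    have : lv E n a (a + 0) = Set.univ := by
      ext ω
      simp only [Set.mem_univ, iff_true]
      intro k h1 h2
      omega
    rw [this]
    simp
  | succ d ih =>
    rw [← add_assoc, lv_succ _ _ _ (by omega)]
    have h1 := lv_meas hJ n hE a (a + d) (by omega)
    rw [indep_mul hm hind _ h1 (hE (a + d)), pow_succ]
    · exact mul_le_mul (ih (by omega)) (hπ _ (by omega)) hπ0 measureReal_nonneg
    · rw [Finset.disjoint_left]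
      intro i hi hi2
      rw [mem_Ioc] at hi hi2
      omega

lemma ratio_le (hm : ∀ j, Measurable (ξ j)) (hind : iIndepFun ξ P) (hJ : Monotone J)
    {n n' : ℕ} (hE : ∀ n k, MeasurableSet[mS ξ (Ioc (n - J (k + 1)) (n - J k))] (E n k))
    {π : ℝ} (hπ0 : 0 < π) {K : ℕ} (hπ : ∀ k < K, π ≤ P.real (E n k))
    (hπ' : ∀ k < K, π ≤ P.real (E n' k)) {m : ℕ} (hmK : m ≤ K)
    (hd : m = 0 ∨ n + J m ≤ n') :
    P.real (lv E n 0 K ∩ lv E n' 0 K) / (P.real (lv E n 0 K) * P.real (lv E n' 0 K)) ≤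
      (π⁻¹) ^ (K - m) := by
  have hA := lv_prob (P := P) hm hind hJ n (hE n) hπ0.le hπ 0 K (by omega)
  rw [zero_add] at hA
  have hA0 : 0 < P.real (lv E n 0 K) := lt_of_lt_of_le (by positivity) hA
  have hB := lv_prob (P := P) hm hind hJ n' (hE n') hπ0.le hπ' m (K - m) (by omega)
  rw [Nat.add_sub_cancel' hmK] at hB
  have hB0 : 0 < P.real (lv E n' m K) := lt_of_lt_of_le (by positivity) hB
  have hC := lv_prob (P := P) hm hind hJ n' (hE n') hπ0.le hπ' 0 m (by omega)
  rw [zero_add] at hC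
  have hC0 : 0 < P.real (lv E n' 0 m) := lt_of_lt_of_le (by positivity) hC
  have h1 : P.real (lv E n' 0 K) = P.real (lv E n' 0 m) * P.real (lv E n' m K) := by
    rw [lv_split n' 0 m K (by omega) hmK]
    apply indep_mul hm hind _ (lv_meas hJ n' (hE n') 0 m (by omega))
      (lv_meas hJ n' (hE n') m K hmK)
    rw [Finset.disjoint_left]
    intro i hi hi2
    rw [mem_Ioc] at hi hi2
    omega
  have h2 : P.real (lv E n 0 K ∩ lv E n' 0 K) ≤ P.real (lv E n 0 K) * P.real (lv E n' 0 m) := by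
    rcases hd with rfl | hd
    · have h3 : lv E n' 0 0 = Set.univ := by
        ext ω
        simp only [Set.mem_univ, iff_true]
        intro k h1 h2
        omega
      rw [h3]
      simp only [probReal_univ, mul_one]
      exact measureReal_mono Set.inter_subset_left
    · rw [← indep_mul hm hind _ (lv_meas hJ n (hE n) 0 K (by omega))
        (lv_meas hJ n' (hE n') 0 m (by omega))]
      · refine measureReal_mono ?_
        intro ω hω
        exact ⟨hω.1, fun k h3 h4 => hω.2 k h3 (by omega)⟩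
      · rw [Finset.disjoint_left]
        intro i hi hi2
        rw [mem_Ioc] at hi hi2
        omega
  rw [h1, div_le_iff₀ (by positivity)]
  refine h2.trans ?_
  have h4 : 1 ≤ (π⁻¹) ^ (K - m) * P.real (lv E n' m K) := by
    calc (1 : ℝ) = (π⁻¹) ^ (K - m) * π ^ (K - m) := by
          rw [← mul_pow, inv_mul_cancel₀ hπ0.ne', one_pow]
      _ ≤ _ := by gcongr
  calc P.real (lv E n 0 K) * P.real (lv E n' 0 m)
      ≤ P.real (lv E n 0 K) * P.real (lv E n' 0 m) *
        ((π⁻¹) ^ (K - m) * P.real (lv E n' m K)) := by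
        apply le_mul_of_one_le_right (by positivity) h4
    _ = _ := by ring

lemma exists_level (J : ℕ → ℕ) (K n n' : ℕ) :
    ∃ m ≤ K, (m = 0 ∨ n + J m ≤ n') ∧ (m = K ∨ n' < n + J (m + 1)) := by
  induction K with
  | zero => exact ⟨0, le_rfl, Or.inl rfl, Or.inl rfl⟩
  | succ K ih =>
    obtain ⟨m, hm, h1, h2⟩ := ih
    rcases h2 with rfl | h2
    · by_cases h3 : n' < n + J (m + 1)
      · exact ⟨m, by omega, h1, Or.inr h3⟩
      · exact ⟨m + 1, le_rfl, Or.inr (by omega), Or.inl rfl⟩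
    · exact ⟨m, by omega, h1, Or.inr h2⟩

lemma ratio_sum_le (hm : ∀ j, Measurable (ξ j)) (hind : iIndepFun ξ P) (hJ : Monotone J)
    {n n' : ℕ} (hE : ∀ n k, MeasurableSet[mS ξ (Ioc (n - J (k + 1)) (n - J k))] (E n k))
    {π : ℝ} (hπ0 : 0 < π) {K : ℕ} (hπ : ∀ k < K, π ≤ P.real (E n k))
    (hπ' : ∀ k < K, π ≤ P.real (E n' k)) :
    P.real (lv E n 0 K ∩ lv E n' 0 K) / (P.real (lv E n 0 K) * P.real (lv E n' 0 K)) - 1 ≤
      ∑ m ∈ range K, if n' < n + J (m + 1) ∧ n < n' + J (m + 1) then (π⁻¹) ^ (K - m) else 0 := by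
  wlog hnn : n ≤ n' generalizing n n' with H
  · have h1 := H hπ' hπ (by omega)
    rw [Set.inter_comm, mul_comm (P.real (lv E n 0 K))]
    refine h1.trans (le_of_eq (sum_congr rfl fun m _ => ?_))
    simp only [and_comm]
  obtain ⟨m, hmK, h1, h2⟩ := exists_level J K n n'
  have h3 := ratio_le (P := P) hm hind hJ hE hπ0 hπ hπ' hmK h1
  have hnn0 : ∀ m ∈ range K, (0 : ℝ) ≤
      if n' < n + J (m + 1) ∧ n < n' + J (m + 1) then (π⁻¹) ^ (K - m) else 0 := by
    intro m _
    split_ifs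
    · positivity
    · exact le_rfl
  rcases h2 with rfl | h2
  · rw [Nat.sub_self, pow_zero] at h3
    have := sum_nonneg hnn0
    linarith
  · rcases Nat.lt_or_ge m K with h4 | h4
    · have h5 := single_le_sum hnn0 (mem_range.2 h4)
      rw [if_pos ⟨h2, by omega⟩] at h5
      linarith
    · have h6 : m = K := le_antisymm hmK h4
      subst h6
      rw [Nat.sub_self, pow_zero] at h3
      have := sum_nonneg hnn0
      linarith

lemma miss_le (hm : ∀ j, Measurable (ξ j)) (hind : iIndepFun ξ P) (hJ : Monotone J)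
    (hE : ∀ n k, MeasurableSet[mS ξ (Ioc (n - J (k + 1)) (n - J k))] (E n k))
    {π : ℝ} (hπ0 : 0 < π) {K N : ℕ} (hN : 0 < N)
    (hπ : ∀ n ∈ Ico N (2 * N), ∀ k < K, π ≤ P.real (E n k)) :
    P.real {ω | ∀ n ∈ Ico N (2 * N), ω ∉ lv E n 0 K} * N ≤
      ∑ m ∈ range K, 2 * (J (m + 1) : ℝ) * (π⁻¹) ^ (K - m) := by
  have hcard : (Ico N (2 * N)).card = N := by
    rw [Nat.card_Ico]; omega
  have hpos : ∀ n ∈ Ico N (2 * N), 0 < P.real (lv E n 0 K) := by
    intro n hn
    have hA := lv_prob (P := P) hm hind hJ n (hE n) hπ0.le (hπ n hn) 0 K (by omega)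
    rw [zero_add] at hA
    exact lt_of_lt_of_le (by positivity) hA
  have hmeas : ∀ n ∈ Ico N (2 * N), MeasurableSet (lv E n 0 K) := by
    intro n _
    exact mS_le hm _ _ (lv_meas hJ n (hE n) 0 K (by omega))
  set T : ℝ := ∑ m ∈ range K, 2 * (J (m + 1) : ℝ) * (π⁻¹) ^ (K - m) with hT
  have key : ∑ n ∈ Ico N (2 * N), ∑ n' ∈ Ico N (2 * N),
      (P.real (lv E n 0 K ∩ lv E n' 0 K) / (P.real (lv E n 0 K) * P.real (lv E n' 0 K)) - 1) ≤
      (N : ℝ) * T := by
    have h1 : ∀ n ∈ Ico N (2 * N), ∑ n' ∈ Ico N (2 * N),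
      (P.real (lv E n 0 K ∩ lv E n' 0 K) / (P.real (lv E n 0 K) * P.real (lv E n' 0 K)) - 1) ≤
        T := by
      intro n hn
      calc ∑ n' ∈ Ico N (2 * N),
          (P.real (lv E n 0 K ∩ lv E n' 0 K) / (P.real (lv E n 0 K) * P.real (lv E n' 0 K)) - 1)
          ≤ ∑ n' ∈ Ico N (2 * N), ∑ m ∈ range K,
            if n' < n + J (m + 1) ∧ n < n' + J (m + 1) then (π⁻¹) ^ (K - m) else 0 :=
            sum_le_sum fun n' hn' =>
              ratio_sum_le hm hind hJ hE hπ0 (hπ n hn) (hπ n' hn')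
        _ = ∑ m ∈ range K, ∑ n' ∈ Ico N (2 * N),
            if n' < n + J (m + 1) ∧ n < n' + J (m + 1) then (π⁻¹) ^ (K - m) else 0 :=
            sum_comm
        _ ≤ T := by
            apply sum_le_sum
            intro m _
            rw [← sum_filter, sum_const, nsmul_eq_mul]
            apply mul_le_mul_of_nonneg_right _ (by positivity)
            have h2 : ((Ico N (2 * N)).filter
                fun n' => n' < n + J (m + 1) ∧ n < n' + J (m + 1)) ⊆
                Ico (n + 1 - J (m + 1)) (n + J (m + 1)) := by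
              intro i hi
              rw [mem_filter] at hi
              rw [mem_Ico]
              omega
            have h3 := card_le_card h2
            rw [Nat.card_Ico] at h3
            have h4 : ((Ico N (2 * N)).filter
                fun n' => n' < n + J (m + 1) ∧ n < n' + J (m + 1)).card ≤ 2 * J (m + 1) := by
              omega
            exact_mod_cast h4
    calc _ ≤ ∑ n ∈ Ico N (2 * N), T := sum_le_sum h1
      _ = N * T := by rw [sum_const, hcard, nsmul_eq_mul]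
  have h5 := second_moment (P := P) (Ico N (2 * N)) (fun n => lv E n 0 K) hmeas hpos key
  rw [hcard] at h5
  have hN' : (0 : ℝ) < N := by exact_mod_cast hN
  have h6 : (P.real {ω | ∀ n ∈ Ico N (2 * N), ω ∉ lv E n 0 K} * N) * N ≤ T * N := by
    calc _ = P.real {ω | ∀ n ∈ Ico N (2 * N), ω ∉ lv E n 0 K} * (N : ℝ) ^ 2 := by ring
      _ ≤ N * T := h5
      _ = T * N := mul_comm _ _
  exact le_of_mul_le_mul_right h6 hN'

end tree

end H11Kac
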